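import Pool.Agent.Lib.MP_9c5702_nt.QS.FCovP

/-! Refined classes modulo `3 q`. -/

set_option autoImplicit false

namespace Pool.Agent.Lib.MP_9c5702_nt.QS

open Pool.Agent.Lib.MP_9c5702_nt.Q4 Pool.Agent.Lib.MP_9c5702_nt.QB

theorem fcov (n q B T : ℕ) (hn : q ^ 2 ∣ n) (hn1 : 1 ≤ n) (hq : 1 ≤ q) (hT : TB n T) :
    Cov (Sol n B) (fun P P' => Crs (3 * (q : ℤ)) P P' ∧ FlQ q P P') (3 * q * T ^ 7) := by
  have hm : 3 * q ≠ 0 := by omega
  have hq0 : q ≠ 0 := by omega
  have hqn : q ∣ n := (dvd_pow_self q (by norm_num)).trans hn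
  have key := cov_prod (Z := Sol n B)
    (fun m P P' => Crs (m : ℤ) P P' ∧
      ∀ p : ℕ, p.Prime → p ∣ m → Fl (p : ℤ) (q.factorization p) P P')
    (fun P P' => ⟨fun i j => by simp, fun p hp h => absurd (Nat.dvd_one.1 h) hp.ne_one⟩)
    (fun m m' hc P P' h h' => ⟨fun i j => by
      push_cast
      exact (Nat.isCoprime_iff_coprime.2 hc).mul_dvd (h.1 i j) (h'.1 i j),
      fun p hp hd => ((Nat.Prime.dvd_mul hp).1 hd).elim (h.2 p hp) (h'.2 p hp)⟩)
    (3 * q).primeFactors (fun p hp => Nat.prime_of_mem_primeFactors hp) (3 * q).factorization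
    (fun p => 81 * p ^ (3 * q).factorization p) (by
      intro p hp
      have hpp := Nat.prime_of_mem_primeFactors hp
      have hf : (3 * q).factorization p = (3 : ℕ).factorization p + q.factorization p := by
        rw [Nat.factorization_mul (by norm_num) hq0, Finsupp.add_apply]
      have hpos := hpp.factorization_pos_of_dvd hm (Nat.dvd_of_mem_primeFactors hp)
      have h3 : (p ≠ 3 ∧ (3 * q).factorization p = q.factorization p) ∨
          (p = 3 ∧ (3 * q).factorization p = q.factorization p + 1) := by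
        by_cases h : p = 3
        · right
          refine ⟨h, ?_⟩
          rw [hf, h, Nat.prime_three.factorization_self, add_comm]
        · left
          refine ⟨h, ?_⟩
          rw [hf, Nat.factorization_eq_zero_of_not_dvd fun hd =>
            h ((Nat.prime_dvd_prime_iff_eq hpp Nat.prime_three).1 hd), zero_add]
      have hsame : ∀ p' : ℕ, p'.Prime → p' ∣ p ^ (3 * q).factorization p → p' = p :=
        fun p' hp' hd => (Nat.prime_dvd_prime_iff_eq hp' hpp).1 (hp'.dvd_of_dvd_pow hd)
      by_cases ha : 1 ≤ q.factorization p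
      · have hd : p ^ (2 * q.factorization p) ∣ n := by
          refine dvd_trans ?_ hn
          rw [mul_comm, pow_mul]
          exact pow_dvd_pow_of_dvd (Nat.ordProj_dvd q p) 2
        refine cov_mono (fcov_prime n B p _ _ hpp ha h3 hd) (fun _ h => h)
          (fun P _ P' _ h => ⟨h.1, fun p' hp' hd' => ?_⟩) le_rfl
        rw [hsame p' hp' hd']
        exact h.2
      · have ha0 : q.factorization p = 0 := by omega
        have h31 : p = 3 ∧ (3 * q).factorization p = 1 := by
          rcases h3 with h | h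
          · omega
          · exact ⟨h.1, by omega⟩
        refine cov_mono (qcov_prime n B p _ hpp hpos (Or.inr (Or.inr h31))) (fun _ h => h)
          (fun P _ P' _ h => ⟨h, fun p' hp' hd' => ?_⟩)
          (Nat.mul_le_mul_right _ (by norm_num))
        rw [hsame p' hp' hd', ha0]
        intro k _
        simp)
  have e1 : ∏ p ∈ (3 * q).primeFactors, p ^ (3 * q).factorization p = 3 * q :=
    Nat.prod_factorization_pow_eq_self hm
  rw [Finset.prod_mul_distrib, Finset.prod_const, e1] at key
  refine cov_mono key (fun _ h => h) (fun P _ P' _ h => ⟨by exact_mod_cast h.1, fun p hp => ?_⟩) ?_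
  · by_cases hd : p ∣ q
    · exact h.2 p hp (hd.mul_left 3)
    · rw [Nat.factorization_eq_zero_of_not_dvd hd]
      intro k _
      simp
  have h1 := omega_le (3 * q) hm
  have h2 : (3 * q).divisors.card ≤ T := by
    refine hT _ (by omega) ?_
    have := Nat.le_of_dvd hn1 hqn
    exact le_trans (by omega) (Nat.le_self_pow (by norm_num) (4 * n))
  rw [mul_comm]
  refine Nat.mul_le_mul_left _ ?_
  calc 81 ^ (3 * q).primeFactors.card ≤ (2 ^ 7) ^ (3 * q).primeFactors.card :=
        Nat.pow_le_pow_left (by norm_num) _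
    _ = (2 ^ (3 * q).primeFactors.card) ^ 7 := by rw [← pow_mul, ← pow_mul, mul_comm]
    _ ≤ T ^ 7 := Nat.pow_le_pow_left (h1.trans h2) 7

end Pool.Agent.Lib.MP_9c5702_nt.QS
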