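import Pool.Agent.Lib.MP_9c5702_nt.QS.Defs

/-! The numerical condition of the determinant step. -/

set_option autoImplicit false

namespace Pool.Agent.Lib.MP_9c5702_nt.QS

open Pool.Agent.Lib.MP_9c5702_nt.Q4 Pool.Agent.Lib.MP_9c5702_nt.QB

theorem form_num2 (n B Y κ D s g l w : ℕ) (S : Finset ℕ) (a β v : ℕ → ℕ) (hA : Adm2 n S a β)
    (hn : 1 ≤ n) (hB : B ^ 3 ≤ n) (hnY : n ≤ Y ^ κ) (hD : D = 204 * κ + 5)
    (hY : (4 * D ^ 2) ^ 4 ≤ Y) (hs : 2 * s = 3 * D ^ 2 + 3 * D + 2) (hg : g ≤ D ^ 3 + 2 * D ^ 2)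
    (hl1 : 1 ≤ l) (hl : max 0 (mu n S a β) + Real.log Y ≤ √3 * Real.log l)
    (hv : ∀ p ∈ S, phi (a p) (β p) * (D : ℝ) ^ 3 - 201 * β p * (D : ℝ) ^ 2 ≤ v p)
    (hw : √3 * (D : ℝ) ^ 3 - 5 * (D : ℝ) ^ 2 ≤ w) :
    s ^ s * B ^ g < (∏ p ∈ S, p ^ v p) * l ^ w := by
  have hS : ∀ p ∈ S, p.Prime := fun p hp => (hA p hp).1
  have lp : ∀ p ∈ S, 0 ≤ Real.log p := fun p _ => Real.log_natCast_nonneg p
  have D5 : 5 ≤ D := by omega
  have s1 : 1 ≤ s := by omega
  have s4 : s ≤ 4 * D ^ 2 := by nlinarith only [hs, D5]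
  have n0 : (0 : ℝ) < n := by exact_mod_cast hn
  have s0 : (0 : ℝ) < s := by exact_mod_cast s1
  have l0 : (0 : ℝ) < l := by exact_mod_cast hl1
  have d5 : (5 : ℝ) ≤ D := by exact_mod_cast D5
  have dk : (D : ℝ) = 204 * κ + 5 := by exact_mod_cast hD
  have s4' : (s : ℝ) ≤ 4 * (D : ℝ) ^ 2 := by exact_mod_cast s4
  have g' : (g : ℝ) ≤ (D : ℝ) ^ 3 + 2 * (D : ℝ) ^ 2 := by exact_mod_cast hg
  have d2 : (0 : ℝ) < (D : ℝ) ^ 2 := by positivity
  have q1 : (1 : ℝ) < 4 * (D : ℝ) ^ 2 := by nlinarith only [d5]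
  have hy : 4 * Real.log (4 * (D : ℝ) ^ 2) ≤ Real.log Y := by
    have h1 : (4 * (D : ℝ) ^ 2) ^ 4 ≤ Y := by exact_mod_cast hY
    have h2 := Real.log_le_log (by positivity) h1
    rwa [Real.log_pow, Nat.cast_ofNat] at h2
  have y0 : 0 < Real.log Y := by linarith only [hy, Real.log_pos q1]
  have N0 : 0 ≤ Real.log n := Real.log_natCast_nonneg n
  have L0 : 0 ≤ Real.log l := Real.log_natCast_nonneg l
  have Ny : Real.log n ≤ κ * Real.log Y := by
    rw [← Real.log_pow]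
    exact Real.log_le_log n0 (by exact_mod_cast hnY)
  have e1 : (s : ℝ) * Real.log s ≤ (D : ℝ) ^ 2 * Real.log Y := by
    have h1 := Real.log_le_log s0 s4'
    have h2 : Real.log s ≤ Real.log Y / 4 := by linarith only [h1, hy]
    calc _ ≤ 4 * (D : ℝ) ^ 2 * (Real.log Y / 4) :=
          mul_le_mul s4' h2 (Real.log_natCast_nonneg s) (by positivity)
      _ = _ := by ring
  have e2 : (B : ℝ) ≤ Real.exp (Real.log n / 3) := by
    refine le_of_pow_le_pow_left₀ (n := 3) (by norm_num) (Real.exp_pos _).le ?_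
    rw [← Real.exp_nat_mul, show ((3 : ℕ) : ℝ) * (Real.log n / 3) = Real.log n by push_cast; ring,
      Real.exp_log n0]
    exact_mod_cast hB
  have e3 : (g : ℝ) * (Real.log n / 3) ≤ ((D : ℝ) ^ 3 + 2 * (D : ℝ) ^ 2) * (Real.log n / 3) :=
    mul_le_mul_of_nonneg_right g' (by positivity)
  have hb := hA.sum_log_le hn
  have e4 : (D : ℝ) ^ 3 * (∑ p ∈ S, phi (a p) (β p) * Real.log p) -
      201 * (D : ℝ) ^ 2 * (∑ p ∈ S, (β p : ℝ) * Real.log p) ≤ ∑ p ∈ S, (v p : ℝ) * Real.log p := by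
    rw [Finset.mul_sum, Finset.mul_sum, ← Finset.sum_sub_distrib]
    refine Finset.sum_le_sum fun p hp => ?_
    have h1 := mul_le_mul_of_nonneg_right (hv p hp) (lp p hp)
    linarith only [h1]
  have e5 : -(1 / 6 * ∑ p ∈ S, (β p : ℝ) * Real.log p) ≤ ∑ p ∈ S, phi (a p) (β p) * Real.log p := by
    rw [Finset.mul_sum, ← Finset.sum_neg_distrib]
    refine Finset.sum_le_sum fun p hp => ?_
    have h1 := mul_nonneg (Real.sqrt_nonneg ((a p : ℝ) * β p)) (lp p hp)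
    rw [phi]
    linarith only [h1]
  have m1 : mu n S a β ≤ max 0 (mu n S a β) := le_max_right _ _
  have m2 : max 0 (mu n S a β) ≤ Real.log n / 2 :=
    max_le (by positivity) (by rw [mu]; linarith only [e5, hb])
  have m3 : ∑ p ∈ S, phi (a p) (β p) * Real.log p = Real.log n / 3 - mu n S a β := by
    rw [mu]; ring
  have r3 : (5 : ℝ) ≤ 3 * √3 := by
    have h1 : (5 / 3 : ℝ) ≤ √3 := Real.le_sqrt_of_sq_le (by norm_num)
    linarith only [h1]
  have e6 : (D : ℝ) ^ 2 * (D - 3) * (max 0 (mu n S a β) + Real.log Y) ≤ w * Real.log l := by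
    have h1 : (D : ℝ) ^ 2 * (D - 3) * √3 ≤ w := by nlinarith only [hw, r3, d2]
    calc _ ≤ (D : ℝ) ^ 2 * (D - 3) * (√3 * Real.log l) :=
          mul_le_mul_of_nonneg_left hl (mul_nonneg d2.le (by linarith only [d5]))
      _ = (D : ℝ) ^ 2 * (D - 3) * √3 * Real.log l := by ring
      _ ≤ _ := mul_le_mul_of_nonneg_right h1 L0
  have key : (s : ℝ) * Real.log s + g * (Real.log n / 3) <
      ∑ p ∈ S, (v p : ℝ) * Real.log p + w * Real.log l := by
    rw [m3] at e4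
    have h1 := mul_le_mul_of_nonneg_left hb d2.le
    have h2 := mul_le_mul_of_nonneg_left m1 (show (0 : ℝ) ≤ (D : ℝ) ^ 3 by positivity)
    have h3 := mul_le_mul_of_nonneg_left m2 d2.le
    have h4 := mul_le_mul_of_nonneg_left Ny d2.le
    have h5 := mul_pos d2 y0
    have h6 := mul_nonneg d2.le N0
    have h7 : (D : ℝ) ^ 3 * Real.log Y =
        204 * ((D : ℝ) ^ 2 * (κ * Real.log Y)) + 5 * ((D : ℝ) ^ 2 * Real.log Y) := by
      rw [pow_succ (D : ℝ) 2, mul_assoc]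
      nth_rewrite 2 [dk]
      ring
    linarith only [e1, e3, e4, e6, h1, h2, h3, h4, h5, h6, h7]
  have P0 : (0 : ℝ) < ((∏ p ∈ S, p ^ v p : ℕ) : ℝ) := by
    exact_mod_cast Finset.prod_pos fun p hp => pow_pos (hS p hp).pos _
  have fin : (s : ℝ) ^ s * (B : ℝ) ^ g < ((∏ p ∈ S, p ^ v p : ℕ) : ℝ) * (l : ℝ) ^ w := by
    calc _ ≤ Real.exp (s * Real.log s) * Real.exp (g * (Real.log n / 3)) := by
          rw [Real.exp_nat_mul, Real.exp_nat_mul, Real.exp_log s0]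
          gcongr
      _ < Real.exp (∑ p ∈ S, (v p : ℝ) * Real.log p + w * Real.log l) := by
          rw [← Real.exp_add]
          exact Real.exp_lt_exp.2 key
      _ = _ := by
          rw [Real.exp_add, ← log_prod_pow v hS, Real.exp_log P0, Real.exp_nat_mul, Real.exp_log l0]
  exact_mod_cast fin

end Pool.Agent.Lib.MP_9c5702_nt.QS
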