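import Pool.Agent.Lib.MP_9c5702_nt.QS.Lat
import Pool.Agent.Lib.MP_9c5702_nt.Q4.Copl

/-! The points of a class lie in a plane. -/

set_option autoImplicit false

namespace Pool.Agent.Lib.MP_9c5702_nt.QS

open Pool.Agent.Lib.MP_9c5702_nt.Q4 Pool.Agent.Lib.MP_9c5702_nt.QB

theorem coplanar2 (q l B : ℕ) (hB : 1 ≤ B) (hql : IsCoprime (q : ℤ) (l : ℤ))
    (hbig : 256 * B ^ 3 < l ^ 6 * q ^ 3) (W : Finset V) (hne : W.Nonempty)
    (hW : ∀ P ∈ W, ∀ k, 0 < P k ∧ P k ≤ B) (hQ : Lat (q : ℤ) W) (hC : AChart (l : ℤ) W) :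
    ∃ (ψ : V) (c0 : ℤ), ψ ≠ 0 ∧ (∀ i, |ψ i| ≤ (4 * (B : ℤ)) ^ 4) ∧ |c0| ≤ (4 * (B : ℤ)) ^ 4 ∧
      ∀ P ∈ W, dot ψ P = c0 := by
  have hdet : ∀ p : Fin 4 → V, (∀ i, p i ∈ W) →
      (Matrix.of fun r i => coplA (p i) r).det = 0 := by
    intro p hp
    have h1 : (l : ℤ) ^ 6 ∣ (Matrix.of fun r i => coplA (p i) r).det := by
      have hf : ∀ r : Fin 4, PolyMod (l : ℤ) W (fun P => coplA P r) := by
        intro r
        fin_cases r
        · exact polyMod_const (l : ℤ) W 1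
        · exact polyMod_coord (l : ℤ) W 0
        · exact polyMod_coord (l : ℤ) W 1
        · exact polyMod_coord (l : ℤ) W 2
      have := affdet (ι := Fin 4) (l : ℤ) W hC (fun r P => coplA P r) hf p hp
      simpa using this
    have h2 : (q : ℤ) ^ 3 ∣ (Matrix.of fun r i => coplA (p i) r).det := by
      rw [copl_expand]
      exact dvd_sub (dvd_add (dvd_sub (lat_det _ W hQ _ _ _ (hp 1) (hp 2) (hp 3))
        (lat_det _ W hQ _ _ _ (hp 0) (hp 2) (hp 3))) (lat_det _ W hQ _ _ _ (hp 0) (hp 1) (hp 3)))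
        (lat_det _ W hQ _ _ _ (hp 0) (hp 1) (hp 2))
    have h3 : (l : ℤ) ^ 6 * (q : ℤ) ^ 3 ∣ (Matrix.of fun r i => coplA (p i) r).det :=
      IsCoprime.mul_dvd (IsCoprime.pow hql.symm) h1 h2
    have h4 := det_le_rows (ι := Fin 4) (Matrix.of fun r i => coplA (p i) r) ![1, B, B, B]
      (fun r i => copl_abs B (p i) (hW _ (hp i)) r)
    have h5 : (Fintype.card (Fin 4) ^ Fintype.card (Fin 4) *
        ∏ r, (![1, B, B, B] : Fin 4 → ℕ) r : ℕ) = 256 * B ^ 3 := by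
      simp [Fin.prod_univ_succ]
      ring
    rw [h5] at h4
    refine Int.eq_zero_of_abs_lt_dvd h3 (lt_of_le_of_lt h4 ?_)
    exact_mod_cast hbig
  obtain ⟨c, hc, hcW⟩ := ker_of_det (ι := Fin 4) W coplA hdet
  have hH : ∀ P ∈ W, ∀ r, |coplA P r| ≤ (B : ℤ) := by
    intro P hP r
    have h : ∀ k, |P k| ≤ (B : ℤ) := fun k => by
      rw [abs_of_pos (hW P hP k).1]; exact (hW P hP k).2
    fin_cases r
    · simpa using hB
    · simpa using h 0
    · simpa using h 1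
    · simpa using h 2
  obtain ⟨d, hd, hdW, hdb⟩ := ker_bdd (ι := Fin 4) W coplA B hB hH c hc hcW
  have hb : ∀ r, |d r| ≤ (4 * (B : ℤ)) ^ 4 := by
    intro r
    have := hdb r
    simpa using this
  have hsum : ∀ P ∈ W, d 0 + (d 1 * P 0 + d 2 * P 1 + d 3 * P 2) = 0 := by
    intro P hP
    have := hdW P hP
    rw [Fin.sum_univ_four] at this
    simp only [coplA_0, coplA_1, coplA_2, coplA_3] at this
    linarith
  refine ⟨![d 1, d 2, d 3], -d 0, ?_, ?_, ?_, ?_⟩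
  · intro h0
    have e1 : d 1 = 0 := congrFun h0 0
    have e2 : d 2 = 0 := congrFun h0 1
    have e3 : d 3 = 0 := congrFun h0 2
    obtain ⟨P, hP⟩ := hne
    have e0 : d 0 = 0 := by
      have := hsum P hP
      rw [e1, e2, e3] at this
      linarith
    apply hd
    funext r
    fin_cases r
    · exact e0
    · exact e1
    · exact e2
    · exact e3
  · intro i
    fin_cases i
    · exact hb 1
    · exact hb 2
    · exact hb 3
  · rw [abs_neg]; exact hb 0
  · intro P hP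
    have := hsum P hP
    show d 1 * P 0 + d 2 * P 1 + d 3 * P 2 = -d 0
    linarith

end Pool.Agent.Lib.MP_9c5702_nt.QS
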