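import Pool.Agent.Lib.MP_9c5702_nt.QS.Core
import Pool.Agent.Lib.MP_9c5702_nt.QB.Core2

/-! The count of primitive solutions. -/

set_option autoImplicit false

namespace Pool.Agent.Lib.MP_9c5702_nt.QS

open Pool.Agent.Lib.MP_9c5702_nt.Q4 Pool.Agent.Lib.MP_9c5702_nt.QB

theorem core2 (ε : ℝ) (hε : 0 < ε) : ∃ C : ℝ, 0 < C ∧ ∀ (n B : ℕ) (S : Finset ℕ) (a β : ℕ → ℕ),
    1 ≤ n → Adm2 n S a β → B ^ 3 ≤ n → ∀ W : Finset V, (∀ P ∈ W, P ∈ Sol n B) →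
    (W.card : ℝ) ≤ C * (n : ℝ) ^ ε * Bd2 n S a β := by
  obtain ⟨δ, hδ, rfl⟩ : ∃ δ : ℝ, 0 < δ ∧ ε = 19 * δ := ⟨ε / 19, by positivity, by ring⟩
  obtain ⟨κ, hκ⟩ := exists_nat_ge (1 / δ)
  have hκ' : 1 ≤ δ * κ := by rwa [div_le_iff₀' hδ] at hκ
  obtain ⟨C, Y0, hC⟩ := core κ
  obtain ⟨Cd, hCd1, hCd⟩ := divisor_bound (show 0 < δ / 60 by positivity)
  set E : ℝ := Cd * 4 ^ δ with hE
  have hE0 : 0 < E := by positivity
  refine ⟨16 * C * ((Y0 : ℝ) + 2) ^ 3 * (E + 1) ^ 16 + 1, by positivity, ?_⟩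
  intro n B S a β hn hA hB W hW
  have hn1 : (1 : ℝ) ≤ n := by exact_mod_cast hn
  have hn0 : (0 : ℝ) < n := by linarith
  have hq1 : (1 : ℝ) ≤ qq S a := by exact_mod_cast hA.qq_pos
  have hq0 : (0 : ℝ) < qq S a := by linarith
  set Sx : ℝ := (max 1 ((n : ℝ) / (qq S a : ℝ) ^ 3)) ^ ((1 : ℝ) / 6) with hSx
  have hS1 : 1 ≤ Sx := Real.one_le_rpow (le_max_left _ _) (by norm_num)
  have hS6 : (n : ℝ) ≤ Sx ^ 6 * (qq S a : ℝ) ^ 3 := by
    have h1 := core2_root (x := max 1 ((n : ℝ) / (qq S a : ℝ) ^ 3)) (by positivity) 6 (by norm_num)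
    rw [Nat.cast_ofNat] at h1
    rw [hSx, h1, ← div_le_iff₀ (by positivity)]
    exact le_max_right _ _
  set G : ℝ := Real.exp (2 / √3 * max 0 (mu n S a β)) with hG
  have hG0 : 0 < G := Real.exp_pos _
  have hBd : Bd2 n S a β = qq S a * G * Sx := rfl
  rcases W.eq_empty_or_nonempty with rfl | ⟨P, hP⟩
  · simp only [Finset.card_empty, Nat.cast_zero, hBd]; positivity
  have hB1 : 1 ≤ B := by
    have h1 := ((hW P hP).1 0).1
    have h2 := ((hW P hP).1 0).2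
    omega
  set Z : ℝ := (n : ℝ) ^ δ with hZ
  have hZ1 : 1 ≤ Z := Real.one_le_rpow hn1 hδ.le
  set Y : ℕ := Y0 + ⌈Z⌉₊ with hY
  have hY0 : (0 : ℝ) ≤ Y0 := Nat.cast_nonneg _
  have hYZ : Z ≤ Y := by
    rw [hY]; push_cast; linarith [Nat.le_ceil Z]
  have hYle : (Y : ℝ) ≤ (Y0 + 2) * Z := by
    rw [hY]; push_cast
    have := Nat.ceil_lt_add_one (show 0 ≤ Z by linarith)
    nlinarith
  have hY1 : (1 : ℝ) ≤ Y := hZ1.trans hYZ
  have hnY : n ≤ Y ^ κ := by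
    have h1 : (n : ℝ) ≤ Z ^ κ := by
      rw [hZ, ← Real.rpow_natCast, ← Real.rpow_mul hn0.le]
      exact Real.self_le_rpow_of_one_le hn1 hκ'
    have h2 : Z ^ κ ≤ (Y : ℝ) ^ κ := pow_le_pow_left₀ (by linarith) hYZ κ
    exact_mod_cast h1.trans h2
  set T : ℕ := ⌈E * Z⌉₊ with hT
  have hTle : (T : ℝ) ≤ (E + 1) * Z := by
    have := Nat.ceil_lt_add_one (show 0 ≤ E * Z by positivity)
    rw [hT]; nlinarith
  have hTB : TB n T := by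
    intro R hR1 hR
    have h1 : (R : ℝ) ≤ (4 * (n : ℝ)) ^ 60 := by exact_mod_cast hR
    have h2 : (R : ℝ) ^ (δ / 60) ≤ 4 ^ δ * Z := by
      refine (Real.rpow_le_rpow (Nat.cast_nonneg _) h1 (by positivity)).trans (le_of_eq ?_)
      rw [← Real.rpow_natCast, ← Real.rpow_mul (by positivity), hZ,
        ← Real.mul_rpow (by norm_num) hn0.le]
      congr 1
      push_cast
      ring
    have h4 : (R.divisors.card : ℝ) ≤ E * Z := by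
      refine (hCd R (by omega)).trans ?_
      rw [hE, mul_assoc]
      exact mul_le_mul_of_nonneg_left h2 (by linarith)
    exact_mod_cast h4.trans (Nat.le_ceil _)
  obtain ⟨L1, hL1a, hL1b, hL1c⟩ := core2_L1 (max 0 (mu n S a β)) Y (le_max_left _ _) hY1
  set L : ℕ := ⌈3 * Sx * Y⌉₊ with hL
  have hSY : 1 ≤ Sx * Y := one_le_mul_of_one_le_of_one_le hS1 hY1
  have hLle : (L : ℝ) ≤ 4 * Sx * Y := by
    have := Nat.ceil_lt_add_one (show 0 ≤ 3 * Sx * Y by positivity)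
    rw [hL]; nlinarith
  have hLY : (Y : ℝ) ≤ L := by
    refine le_trans ?_ (Nat.le_ceil _)
    nlinarith
  have hL2 : Y ≤ L ^ 2 := by
    have h1 : (Y : ℝ) ≤ (L : ℝ) ^ 2 := by nlinarith
    exact_mod_cast h1
  have hL6 : 256 * n * Y ^ 3 ≤ L ^ 6 * qq S a ^ 3 := by
    have h1 : (3 * Sx * Y) ^ 6 ≤ (L : ℝ) ^ 6 := pow_le_pow_left₀ (by positivity) (Nat.le_ceil _) 6
    have h2 : (Y : ℝ) ^ 3 ≤ (Y : ℝ) ^ 6 := pow_le_pow_right₀ hY1 (by norm_num)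
    have h4 : 256 * (n : ℝ) * (Y : ℝ) ^ 3 ≤ (3 * Sx * Y) ^ 6 * (qq S a : ℝ) ^ 3 := by
      calc 256 * (n : ℝ) * (Y : ℝ) ^ 3
          ≤ 3 ^ 6 * (Sx ^ 6 * (qq S a : ℝ) ^ 3) * (Y : ℝ) ^ 6 := by
            gcongr
            norm_num
        _ = _ := by ring
    have h5 : (3 * Sx * Y) ^ 6 * (qq S a : ℝ) ^ 3 ≤ (L : ℝ) ^ 6 * (qq S a : ℝ) ^ 3 := by gcongr
    exact_mod_cast h4.trans h5
  have hmain := hC n B Y T L L1 S a β hA hB1 hB (Nat.le_add_right _ _) hnY hTB hL1a hL1b hL2 hL6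
    W hW
  have h1 : (W.card : ℝ) ≤ C * qq S a * (L1 : ℝ) ^ 2 * L * (T : ℝ) ^ 16 := by exact_mod_cast hmain
  have h4 : (n : ℝ) ^ (19 * δ) = Z ^ 19 := by
    rw [hZ, ← Real.rpow_natCast, ← Real.rpow_mul hn0.le]
    congr 1
    push_cast
    ring
  rw [h4, hBd]
  calc (W.card : ℝ) ≤ C * qq S a * (4 * G * ((Y0 + 2) * Z) ^ 2) * (4 * Sx * ((Y0 + 2) * Z)) *
        ((E + 1) * Z) ^ 16 := by
        refine h1.trans ?_
        gcongr
        · exact hL1c.trans (by gcongr)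
        · exact hLle.trans (by gcongr)
    _ = 16 * C * ((Y0 : ℝ) + 2) ^ 3 * (E + 1) ^ 16 * Z ^ 19 * (qq S a * G * Sx) := by ring
    _ ≤ _ := by
        gcongr
        linarith

end Pool.Agent.Lib.MP_9c5702_nt.QS
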