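import Pool.Agent.Lib.MP_9c5702_nt.QB.Defs

/-! Determinant method for `x^3 + y^3 + z^3 = n` with a square divisor of `n`: notions. -/

set_option autoImplicit false

namespace Pool.Agent.Lib.MP_9c5702_nt.QS

open Pool.Agent.Lib.MP_9c5702_nt.Q4 Pool.Agent.Lib.MP_9c5702_nt.QB

def Adm2 (n : ℕ) (S : Finset ℕ) (a β : ℕ → ℕ) : Prop :=
  ∀ p ∈ S, p.Prime ∧ 2 * a p ≤ β p ∧ p ^ β p ∣ n

noncomputable def Bd2 (n : ℕ) (S : Finset ℕ) (a β : ℕ → ℕ) : ℝ :=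
  (qq S a : ℝ) * Real.exp (2 / √3 * max 0 (mu n S a β)) *
    (max 1 ((n : ℝ) / (qq S a : ℝ) ^ 3)) ^ ((1 : ℝ) / 6)

/-- the points of `W` lie in a lattice of index `q ^ 3` -/
def Lat (q : ℤ) (W : Finset V) : Prop :=
  ∃ g0 g1 g2 : V, ∀ P ∈ W, ∃ c0 c1 c2 : ℤ,
    ∀ k, q ^ 3 ∣ P k - (c0 * g0 k + q * c1 * g1 k + q ^ 2 * c2 * g2 k)

/-- a coordinate that is highly divisible by `π` is fixed modulo `π ^ a` -/
def Fl (π : ℤ) (a : ℕ) (P P' : V) : Prop :=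
  ∀ k, π ^ ((2 * a + 2) / 3) ∣ P' k → π ^ a ∣ P k - P' k

def FlQ (q : ℕ) (P P' : V) : Prop := ∀ p : ℕ, p.Prime → Fl (p : ℤ) (q.factorization p) P P'

/-- bound for the number of algebraic integers of a cubic field with all conjugates at most two -/
def CU : ℕ := 3 * 49 ^ 4

lemma Adm2.prod_dvd {n : ℕ} {S : Finset ℕ} {a β : ℕ → ℕ} (h : Adm2 n S a β) :
    (∏ p ∈ S, p ^ β p) ∣ n :=
  prod_pow_dvd (fun p hp => (h p hp).1) fun p hp => (h p hp).2.2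

lemma Adm2.sq_dvd {n : ℕ} {S : Finset ℕ} {a β : ℕ → ℕ} (h : Adm2 n S a β) : qq S a ^ 2 ∣ n := by
  refine dvd_trans ?_ h.prod_dvd
  rw [qq, ← Finset.prod_pow]
  refine Finset.prod_dvd_prod_of_dvd _ _ fun p hp => ?_
  rw [← pow_mul, mul_comm]
  exact pow_dvd_pow p (h p hp).2.1

lemma Adm2.qq_pos {n : ℕ} {S : Finset ℕ} {a β : ℕ → ℕ} (h : Adm2 n S a β) : 1 ≤ qq S a :=
  Finset.prod_pos fun p hp => pow_pos (h p hp).1.pos _

lemma Adm2.sum_log_le {n : ℕ} {S : Finset ℕ} {a β : ℕ → ℕ} (h : Adm2 n S a β) (hn : 1 ≤ n) :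
    ∑ p ∈ S, (β p : ℝ) * Real.log p ≤ Real.log n := by
  rw [← log_prod_pow β fun p hp => (h p hp).1]
  have h1 : 0 < ∏ p ∈ S, p ^ β p := Finset.prod_pos fun p hp => pow_pos (h p hp).1.pos _
  exact Real.log_le_log (by exact_mod_cast h1) (by exact_mod_cast Nat.le_of_dvd hn h.prod_dvd)

end Pool.Agent.Lib.MP_9c5702_nt.QS
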