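import Pool.Agent.Lib.MP_9c5702_nt.QS.Defs
import Pool.Agent.Lib.MP_9c5702_nt.Q4.QCovP

/-! Refined classes modulo a prime power. -/

set_option autoImplicit false

namespace Pool.Agent.Lib.MP_9c5702_nt.QS

open Pool.Agent.Lib.MP_9c5702_nt.Q4 Pool.Agent.Lib.MP_9c5702_nt.QB

lemma fcovp_two_units {p : ℤ} (hp : Prime p) {P : V} (hP : Prim P) (hF : p ∣ F P) :
    ∃ k : Fin 3, ∀ i, i ≠ k → ¬ p ∣ P i := by
  obtain ⟨e, he⟩ := hP
  have cube : ∀ {x : ℤ}, p ∣ x → p ∣ x ^ 3 := fun hx => dvd_pow hx (by norm_num)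
  have all3 : p ∣ P 0 → p ∣ P 1 → p ∣ P 2 → False := by
    intro h0 h1 h2
    have : p ∣ dot e P := dvd_add (dvd_add (h0.mul_left _) (h1.mul_left _)) (h2.mul_left _)
    rw [he] at this
    exact hp.not_dvd_one this
  unfold F at hF
  have a2 : p ∣ P 0 → p ∣ P 1 → False := fun h0 h1 =>
    all3 h0 h1 (hp.dvd_of_dvd_pow ((dvd_add_right (dvd_add (cube h0) (cube h1))).1 hF))
  have a1 : p ∣ P 0 → p ∣ P 2 → False := by
    intro h0 h2
    have : p ∣ P 1 ^ 3 := by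
      have h := dvd_sub (dvd_sub hF (cube h0)) (cube h2)
      rwa [show P 0 ^ 3 + P 1 ^ 3 + P 2 ^ 3 - P 0 ^ 3 - P 2 ^ 3 = P 1 ^ 3 by ring] at h
    exact all3 h0 (hp.dvd_of_dvd_pow this) h2
  have a0 : p ∣ P 1 → p ∣ P 2 → False := by
    intro h1 h2
    have : p ∣ P 0 ^ 3 := by
      have h := dvd_sub (dvd_sub hF (cube h1)) (cube h2)
      rwa [show P 0 ^ 3 + P 1 ^ 3 + P 2 ^ 3 - P 1 ^ 3 - P 2 ^ 3 = P 0 ^ 3 by ring] at h
    exact all3 (hp.dvd_of_dvd_pow this) h1 h2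
  by_cases h0 : p ∣ P 0
  · refine ⟨0, fun i hi => ?_⟩
    fin_cases i
    · exact absurd rfl hi
    · exact fun h => a2 h0 h
    · exact fun h => a1 h0 h
  · by_cases h1 : p ∣ P 1
    · refine ⟨1, fun i hi => ?_⟩
      fin_cases i
      · exact h0
      · exact absurd rfl hi
      · exact fun h => a0 h1 h
    · refine ⟨2, fun i hi => ?_⟩
      fin_cases i
      · exact h0
      · exact h1
      · exact absurd rfl hi

lemma fcovp_cop {p x : ℤ} (hp : Prime p) (hx : ¬ p ∣ x) (α : ℕ) : IsCoprime (p ^ α) x :=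
  ((Irreducible.coprime_iff_not_dvd hp.irreducible).2 hx).pow_left

lemma fcovp_cube_split {p a b : ℤ} (hp : Prime p) (h3 : ¬ p ∣ 3) (α : ℕ) (hb : ¬ p ∣ b)
    (h : p ^ α ∣ a ^ 3 - b ^ 3) (hne : ¬ p ^ α ∣ a - b) :
    ¬ p ∣ a - b ∧ p ^ α ∣ a ^ 2 + a * b + b ^ 2 := by
  have hf : a ^ 3 - b ^ 3 = (a - b) * (a ^ 2 + a * b + b ^ 2) := by ring
  rw [hf] at h
  have h1 : ¬ p ∣ a - b := by
    intro hd
    apply hne
    refine (fcovp_cop hp (x := a ^ 2 + a * b + b ^ 2) ?_ α).dvd_of_dvd_mul_right h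
    intro hq
    have : p ∣ 3 * b ^ 2 := by
      have := dvd_sub hq (hd.mul_right (a + 2 * b))
      rwa [show a ^ 2 + a * b + b ^ 2 - (a - b) * (a + 2 * b) = 3 * b ^ 2 by ring] at this
    rcases hp.dvd_or_dvd this with h' | h'
    · exact h3 h'
    · exact hb (hp.dvd_of_dvd_pow h')
  exact ⟨h1, (fcovp_cop hp h1 α).dvd_of_dvd_mul_left h⟩

lemma fcovp_four_roots {p : ℤ} (hp : Prime p) (h3 : ¬ p ∣ 3) (α : ℕ) (w : Fin 4 → ℤ)
    (hw : ∀ s, ¬ p ∣ w s) (h : ∀ s s', p ^ α ∣ w s ^ 3 - w s' ^ 3) :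
    ∃ s s', s ≠ s' ∧ p ^ α ∣ w s - w s' := by
  by_contra hc
  push Not at hc
  have k : ∀ s s', s ≠ s' → ¬ p ∣ w s - w s' ∧ p ^ α ∣ w s ^ 2 + w s * w s' + w s' ^ 2 :=
    fun s s' hs => fcovp_cube_split hp h3 α (hw s') (h s s') (hc s s' hs)
  have e2 : p ^ α ∣ w 0 + w 1 + w 2 := by
    refine (fcovp_cop hp (k 1 2 (by decide)).1 α).dvd_of_dvd_mul_left ?_
    have := dvd_sub (k 0 1 (by decide)).2 (k 0 2 (by decide)).2
    rwa [show w 0 ^ 2 + w 0 * w 1 + w 1 ^ 2 - (w 0 ^ 2 + w 0 * w 2 + w 2 ^ 2) =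
      (w 1 - w 2) * (w 0 + w 1 + w 2) by ring] at this
  have e3 : p ^ α ∣ w 0 + w 1 + w 3 := by
    refine (fcovp_cop hp (k 1 3 (by decide)).1 α).dvd_of_dvd_mul_left ?_
    have := dvd_sub (k 0 1 (by decide)).2 (k 0 3 (by decide)).2
    rwa [show w 0 ^ 2 + w 0 * w 1 + w 1 ^ 2 - (w 0 ^ 2 + w 0 * w 3 + w 3 ^ 2) =
      (w 1 - w 3) * (w 0 + w 1 + w 3) by ring] at this
  apply hc 2 3 (by decide)
  have := dvd_sub e2 e3
  rwa [show w 0 + w 1 + w 2 - (w 0 + w 1 + w 3) = w 2 - w 3 by ring] at this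

lemma fcovp_cube_up {a b : ℤ} {α : ℕ} (hα : 1 ≤ α) (h : (3 : ℤ) ^ α ∣ a - b) :
    (3 : ℤ) ^ (α + 1) ∣ a ^ 3 - b ^ 3 := by
  have h1 : (3 : ℤ) ∣ a - b := (dvd_pow_self 3 (by omega)).trans h
  have h2 : (3 : ℤ) ∣ (a - b) * (a - b) + 3 * (a * b) :=
    dvd_add (h1.mul_right _) (dvd_mul_right _ _)
  rw [pow_succ, show a ^ 3 - b ^ 3 = (a - b) * ((a - b) * (a - b) + 3 * (a * b)) by ring]
  exact mul_dvd_mul h h2

lemma fcovp_cube_down {a b : ℤ} {α : ℕ} (ha : ¬ (3 : ℤ) ∣ a) (hb : ¬ (3 : ℤ) ∣ b)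
    (h : (3 : ℤ) ^ (α + 1) ∣ a ^ 3 - b ^ 3) : (3 : ℤ) ^ α ∣ a - b := by
  have hp : Prime (3 : ℤ) := Int.prime_three
  have h0 : (3 : ℤ) ∣ a ^ 3 - b ^ 3 := (dvd_pow_self 3 (by omega)).trans h
  have h1 : (3 : ℤ) ∣ a - b := by
    apply hp.dvd_of_dvd_pow (n := 3)
    rw [show (a - b) ^ 3 = a ^ 3 - b ^ 3 - 3 * (a * b * (a - b)) by ring]
    exact dvd_sub h0 (dvd_mul_right _ _)
  obtain ⟨s, hs⟩ := h1
  have hf : a ^ 3 - b ^ 3 = ((a - b) * (3 * s ^ 2 + a * b)) * 3 := by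
    have : a = b + 3 * s := by linarith
    subst this
    ring
  rw [hf, pow_succ] at h
  have h2 := (mul_dvd_mul_iff_right (by norm_num : (3 : ℤ) ≠ 0)).1 h
  refine (fcovp_cop hp (x := 3 * s ^ 2 + a * b) ?_ α).dvd_of_dvd_mul_right h2
  intro hq
  rcases hp.dvd_or_dvd ((dvd_add_right (dvd_mul_right _ _)).1 hq) with h' | h'
  · exact ha h'
  · exact hb h'

lemma fcovp_cls (n : ℤ) (p : ℤ) (hp : Prime p) (α : ℕ) (hα : 1 ≤ α)
    (h : (¬ p ∣ 3 ∧ p ^ α ∣ n) ∨ (p = 3 ∧ 3 ^ (α + 1) ∣ n)) (i j k : Fin 3) (hij : i ≠ j)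
    (hik : i ≠ k) (hjk : j ≠ k) (u : ℤ → ℤ) (hu : ∀ x, ¬ p ∣ x → p ^ (α + 1) ∣ x * u x - 1)
    (Z : Set V) (hZ : ∀ P ∈ Z, F P = n ∧ ¬ p ∣ P i ∧ ¬ p ∣ P j)
    (ht : ∀ P ∈ Z, ∀ P' ∈ Z, p ^ α ∣ P k * u (P i) - P' k * u (P' i)) :
    Cov Z (Crs (p ^ α)) 3 := by
  have hu' : ∀ x, ¬ p ∣ x → p ^ α ∣ x * u x - 1 :=
    fun x hx => (pow_dvd_pow p (Nat.le_succ α)).trans (hu x hx)
  have hunit : ∀ P ∈ Z, ¬ p ∣ P j * u (P i) := by
    intro P hP hd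
    rcases hp.dvd_or_dvd hd with h' | h'
    · exact (hZ P hP).2.2 h'
    · have h1 : p ∣ P i * u (P i) - 1 := (dvd_pow_self p (by omega)).trans (hu _ (hZ P hP).2.1)
      have := dvd_sub (h'.mul_left (P i)) h1
      rw [sub_sub_cancel] at this
      exact hp.not_dvd_one this
  have hcub : ∀ (m : ℤ), m ∣ n → (∀ x, ¬ p ∣ x → m ∣ x * u x - 1) → ∀ P ∈ Z, ∀ P' ∈ Z,
      m ∣ (P k * u (P i)) ^ 3 - (P' k * u (P' i)) ^ 3 →
      m ∣ (P j * u (P i)) ^ 3 - (P' j * u (P' i)) ^ 3 := by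
    intro m hm hmu P hP P' hP' hk
    have e1 := (F_perm P hij hik hjk).symm.trans (hZ P hP).1
    have e2 := (F_perm P' hij hik hjk).symm.trans (hZ P' hP').1
    have d1 := hmu _ (hZ P hP).2.1
    have d2 := hmu _ (hZ P' hP').2.1
    have : (P j * u (P i)) ^ 3 - (P' j * u (P' i)) ^ 3 =
        n * (u (P i) ^ 3 - u (P' i) ^ 3) - ((P k * u (P i)) ^ 3 - (P' k * u (P' i)) ^ 3)
        - (P i * u (P i) - 1) * ((P i * u (P i)) ^ 2 + P i * u (P i) + 1)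
        + (P' i * u (P' i) - 1) * ((P' i * u (P' i)) ^ 2 + P' i * u (P' i) + 1) := by
      linear_combination u (P i) ^ 3 * e1 - u (P' i) ^ 3 * e2
    rw [this]
    exact dvd_add (dvd_sub (dvd_sub (hm.mul_right _) hk) (d1.mul_right _)) (d2.mul_right _)
  have hc : Cov Z (fun P P' => p ^ α ∣ P j * u (P i) - P' j * u (P' i)) 3 := by
    refine cov_no 3 (fun P _ => by simp) ?_ ?_
    · intro P _ Q _ R _ h1 h2
      have := dvd_sub h1 h2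
      rwa [sub_sub_sub_cancel_right] at this
    · intro q hq
      rcases h with ⟨h3, hn⟩ | ⟨rfl, hn⟩
      · refine fcovp_four_roots hp h3 α (fun s => q s j * u (q s i)) (fun s => hunit _ (hq s)) ?_
        intro s s'
        exact hcub _ hn hu' _ (hq s) _ (hq s')
          ((ht _ (hq s) _ (hq s')).trans (sub_dvd_pow_sub_pow _ _ 3))
      · refine ⟨0, 1, by decide, ?_⟩
        exact fcovp_cube_down (hunit _ (hq 0)) (hunit _ (hq 1))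
          (hcub _ hn hu _ (hq 0) _ (hq 1) (fcovp_cube_up hα (ht _ (hq 0) _ (hq 1))))
  refine cov_mono hc (fun P hP => hP) ?_ le_rfl
  intro P hP P' hP' hw
  have d1 := hu' _ (hZ P hP).2.1
  have d2 := hu' _ (hZ P' hP').2.1
  have key : ∀ a, p ^ α ∣ P a * u (P i) - P' a * u (P' i) → p ^ α ∣ P a * P' i - P i * P' a := by
    intro a ha
    have : P a * P' i - P i * P' a = P i * P' i * (P a * u (P i) - P' a * u (P' i))
        - P a * P' i * (P i * u (P i) - 1) + P' a * P i * (P' i * u (P' i) - 1) := by ring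
    rw [this]
    exact dvd_add (dvd_sub (ha.mul_left _) (d1.mul_left _)) (d2.mul_left _)
  have all : ∀ a, p ^ α ∣ P a * P' i - P i * P' a := by
    intro a
    have : a = i ∨ a = j ∨ a = k :=
      (by decide : ∀ i j k m : Fin 3, i ≠ j → i ≠ k → j ≠ k → m = i ∨ m = j ∨ m = k) i j k a
        hij hik hjk
    rcases this with rfl | rfl | rfl
    · simp
    · exact key _ hw
    · exact key _ (ht P hP P' hP')
  intro a b
  refine (fcovp_cop hp (hZ P' hP').2.1 α).dvd_of_dvd_mul_left ?_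
  rw [show P' i * (P a * P' b - P b * P' a) =
    P' b * (P a * P' i - P i * P' a) - P' a * (P b * P' i - P i * P' b) by ring]
  exact dvd_sub ((all a).mul_left _) ((all b).mul_left _)

lemma fcovp_bad (n B p a α : ℕ) (hp : p.Prime) (ha : 1 ≤ a) (haα : a ≤ α)
    (hα2 : α ≤ 2 * ((2 * a + 2) / 3))
    (h : (¬ (p : ℤ) ∣ 3 ∧ (p : ℤ) ^ α ∣ n) ∨ ((p : ℤ) = 3 ∧ (3 : ℤ) ^ (α + 1) ∣ n)) (k : Fin 3) :
    Cov {P | P ∈ Sol n B ∧ (p : ℤ) ^ ((2 * a + 2) / 3) ∣ P k}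
      (fun P P' => Crs ((p : ℤ) ^ α) P P' ∧ Fl (p : ℤ) a P P') (9 * p ^ α) := by
  have hp' : Prime (p : ℤ) := Nat.prime_iff_prime_int.1 hp
  obtain ⟨j, hj⟩ : ∃ j, j = (2 * a + 2) / 3 := ⟨_, rfl⟩
  have hj1 : 1 ≤ j := by omega
  have hja : j ≤ α := by omega
  obtain ⟨b, hb⟩ : ∃ b, α = j + b := ⟨α - j, by omega⟩
  have hb2 : 2 * b ≤ α := by omega
  have hpn : (p : ℤ) ∣ n := by
    rcases h with ⟨_, h⟩ | ⟨h3, h⟩
    · exact (dvd_pow_self _ (by omega)).trans h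
    · rw [h3]; exact (dvd_pow_self _ (by omega)).trans h
  have hex : ∀ x : ℤ, ∃ y : ℤ, ¬ (p : ℤ) ∣ x → (p : ℤ) ^ (α + 1) ∣ x * y - 1 := by
    intro x
    by_cases hx : (p : ℤ) ∣ x
    · exact ⟨0, fun h => absurd hx h⟩
    · obtain ⟨a, b, hab⟩ := fcovp_cop hp' hx (α + 1)
      exact ⟨b, fun _ => ⟨-a, by linear_combination hab⟩⟩
  choose u hu using hex
  have : NeZero (p ^ b) := ⟨pow_ne_zero _ hp.ne_zero⟩
  have hk : k + 1 ≠ k + 2 ∧ k + 1 ≠ k ∧ k + 2 ≠ k := by revert k; decide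
  have hunit : ∀ P : V, P ∈ Sol n B → (p : ℤ) ^ j ∣ P k → ∀ i, i ≠ k → ¬ (p : ℤ) ∣ P i := by
    intro P hP hd
    obtain ⟨k', hk'⟩ := fcovp_two_units hp' hP.2.2 (hP.2.1 ▸ hpn)
    have hd1 : (p : ℤ) ∣ P k := (dvd_pow_self _ (by omega)).trans hd
    by_cases hkk : k = k'
    · rw [hkk]; exact hk'
    · exact absurd hd1 (hk' k hkk)
  rw [← hj]
  have hc := cov_union (Z := {P | P ∈ Sol n B ∧ (p : ℤ) ^ j ∣ P k})
    (r := fun P P' => Crs ((p : ℤ) ^ α) P P' ∧ Fl (p : ℤ) a P P') (N := 3)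
    (Finset.univ : Finset (ZMod (p ^ b) × ZMod (p ^ b)))
    (fun t => {P | (P ∈ Sol n B ∧ (p : ℤ) ^ j ∣ P k) ∧
      ((P k / (p : ℤ) ^ j * u (P (k + 1)) : ℤ) : ZMod (p ^ b)) = t.1 ∧
      ((P k / (p : ℤ) ^ j : ℤ) : ZMod (p ^ b)) = t.2}) ?_ ?_
  · rw [Finset.card_univ, Fintype.card_prod, ZMod.card] at hc
    refine cov_mono hc (fun P hP => hP) (fun P _ P' _ hr => hr) ?_
    have h1 : p ^ b * p ^ b ≤ p ^ α := by
      rw [← pow_add]; exact Nat.pow_le_pow_right hp.pos (by omega)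
    omega
  · intro P hP
    exact ⟨(_, _), Finset.mem_univ _, hP, rfl, rfl⟩
  · rintro ⟨t1, t2⟩ -
    have up : ∀ x y c c' : ℤ, (p : ℤ) ^ j ∣ x → (p : ℤ) ^ j ∣ y →
        (p : ℤ) ^ b ∣ x / (p : ℤ) ^ j * c - y / (p : ℤ) ^ j * c' →
        (p : ℤ) ^ α ∣ x * c - y * c' := by
      intro x y c c' hx hy hd
      obtain ⟨x', rfl⟩ := hx
      obtain ⟨y', rfl⟩ := hy
      have h0 : (p : ℤ) ^ j ≠ 0 := pow_ne_zero _ hp'.ne_zero
      rw [Int.mul_ediv_cancel_left _ h0, Int.mul_ediv_cancel_left _ h0] at hd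
      rw [hb, pow_add, show (p : ℤ) ^ j * x' * c - (p : ℤ) ^ j * y' * c' =
        (p : ℤ) ^ j * (x' * c - y' * c') by ring]
      exact mul_dvd_mul_left _ hd
    refine cov_mono (fcovp_cls n p hp' α (by omega) h (k + 1) (k + 2) k hk.1 hk.2.1 hk.2.2 u hu
      {P | (P ∈ Sol n B ∧ (p : ℤ) ^ j ∣ P k) ∧
      ((P k / (p : ℤ) ^ j * u (P (k + 1)) : ℤ) : ZMod (p ^ b)) = t1 ∧
      ((P k / (p : ℤ) ^ j : ℤ) : ZMod (p ^ b)) = t2} ?_ ?_) (fun P hP => hP) ?_ le_rfl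
    · intro P hP
      exact ⟨hP.1.1.2.1, hunit P hP.1.1 hP.1.2 _ hk.2.1, hunit P hP.1.1 hP.1.2 _ hk.2.2⟩
    · intro P hP P' hP'
      refine up _ _ _ _ hP.1.2 hP'.1.2 ?_
      have := (ZMod.intCast_eq_intCast_iff_dvd_sub _ _ _).1 (hP'.2.1.trans hP.2.1.symm)
      rwa [Nat.cast_pow] at this
    · intro P hP P' hP' hr
      refine ⟨hr, fun k' hk' => ?_⟩
      rw [← hj] at hk'
      by_cases hkk : k' = k
      · subst hkk
        have h1 := (ZMod.intCast_eq_intCast_iff_dvd_sub _ _ _).1 (hP'.2.2.trans hP.2.2.symm)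
        rw [Nat.cast_pow] at h1
        have h2 := up (P k') (P' k') 1 1 hP.1.2 hP'.1.2 (by rwa [mul_one, mul_one])
        rw [mul_one, mul_one] at h2
        exact (pow_dvd_pow _ haα).trans h2
      · exact absurd ((dvd_pow_self _ (by omega)).trans hk') (hunit P' hP'.1.1 hP'.1.2 k' hkk)

lemma fcovp_main (n B p a α : ℕ) (hp : p.Prime) (ha : 1 ≤ a) (haα : a ≤ α)
    (hα2 : α ≤ 2 * ((2 * a + 2) / 3))
    (h : (p ≠ 3 ∧ p ^ α ∣ n) ∨ (p = 3 ∧ 3 ^ (α + 1) ∣ n)) :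
    Cov (Sol n B) (fun P P' => Crs ((p ^ α : ℕ) : ℤ) P P' ∧ Fl (p : ℤ) a P P') (81 * p ^ α) := by
  have h' : (¬ (p : ℤ) ∣ 3 ∧ (p : ℤ) ^ α ∣ n) ∨ ((p : ℤ) = 3 ∧ (3 : ℤ) ^ (α + 1) ∣ n) := by
    rcases h with ⟨h3, hn⟩ | ⟨h3, hn⟩
    · refine Or.inl ⟨?_, by exact_mod_cast hn⟩
      intro hd
      have : p ∣ 3 := by exact_mod_cast hd
      exact h3 ((Nat.prime_dvd_prime_iff_eq hp Nat.prime_three).1 this)
    · exact Or.inr ⟨by exact_mod_cast h3, by exact_mod_cast hn⟩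
  have hq : Cov (Sol n B) (Crs ((p ^ α : ℕ) : ℤ)) (9 * p ^ α) :=
    qcov_prime n B p α hp (by omega) (h.elim Or.inl fun h => Or.inr (Or.inl h))
  have hc := cov_union (Z := Sol n B)
    (r := fun P P' => Crs ((p ^ α : ℕ) : ℤ) P P' ∧ Fl (p : ℤ) a P P') (N := 9 * p ^ α)
    (Finset.univ : Finset (Option (Fin 3)))
    (fun t => t.elim {P | P ∈ Sol n B ∧ ∀ k, ¬ (p : ℤ) ^ ((2 * a + 2) / 3) ∣ P k}
      fun k => {P | P ∈ Sol n B ∧ (p : ℤ) ^ ((2 * a + 2) / 3) ∣ P k}) ?_ ?_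
  · rw [Finset.card_univ, Fintype.card_option, Fintype.card_fin] at hc
    exact cov_mono hc (fun P hP => hP) (fun P _ P' _ hr => hr) (by omega)
  · intro P hP
    by_cases hg : ∀ k, ¬ (p : ℤ) ^ ((2 * a + 2) / 3) ∣ P k
    · exact ⟨none, Finset.mem_univ _, hP, hg⟩
    · push Not at hg
      obtain ⟨k, hk⟩ := hg
      exact ⟨some k, Finset.mem_univ _, hP, hk⟩
  · rintro (_ | k) -
    · exact cov_mono hq (fun P hP => hP.1)
        (fun P _ P' hP' hr => ⟨hr, fun k hk => absurd hk (hP'.2 k)⟩) le_rfl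
    · have := fcovp_bad n B p a α hp ha haα hα2 h' k
      rw [← Nat.cast_pow] at this
      exact this

theorem fcov_prime (n B p a α : ℕ) (hp : p.Prime) (ha : 1 ≤ a)
    (hα : (p ≠ 3 ∧ α = a) ∨ (p = 3 ∧ α = a + 1)) (hn : p ^ (2 * a) ∣ n) :
    Cov (Sol n B) (fun P P' => Crs ((p ^ α : ℕ) : ℤ) P P' ∧ Fl (p : ℤ) a P P') (81 * p ^ α) := by
  rcases hα with ⟨h3, rfl⟩ | ⟨rfl, rfl⟩
  · exact fcovp_main n B p α α hp ha le_rfl (by omega)
      (Or.inl ⟨h3, (pow_dvd_pow p (by omega)).trans hn⟩)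
  · by_cases h1 : a = 1
    · subst h1
      have hc := cov_label (Z := Sol n B)
        (r := fun P P' => Crs ((3 ^ (1 + 1) : ℕ) : ℤ) P P' ∧ Fl ((3 : ℕ) : ℤ) 1 P P')
        (Finset.univ : Finset (Fin 3 → ZMod 9)) (fun P k => ((P k : ℤ) : ZMod 9))
        (fun _ _ => Finset.mem_univ _) ?_
      · rw [Finset.card_univ, Fintype.card_fun, ZMod.card, Fintype.card_fin] at hc
        exact hc
      · intro P _ P' _ he
        have d : ∀ c, (9 : ℤ) ∣ P c - P' c := fun c => by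
          have := (ZMod.intCast_eq_intCast_iff_dvd_sub _ _ _).1 (congrFun he c).symm
          simpa using this
        refine ⟨fun a b => ?_, fun k _ => ?_⟩
        · rw [show P a * P' b - P b * P' a = (P a - P' a) * P' b - (P b - P' b) * P' a by ring]
          exact dvd_sub ((d a).mul_right _) ((d b).mul_right _)
        · exact dvd_trans (by norm_num) (d k)
    · exact fcovp_main n B 3 a (a + 1) hp ha (by omega) (by omega)
        (Or.inr ⟨rfl, (pow_dvd_pow 3 (by omega)).trans hn⟩)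

end Pool.Agent.Lib.MP_9c5702_nt.QS
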