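import Pool.Agent.Lib.MP_9c5702_nt.QS.Defs
import Pool.Agent.Lib.MP_9c5702_nt.Q4.Cov

/-! Divisors of an integer in a cubic field, up to units. -/

set_option autoImplicit false

namespace Pool.Agent.Lib.MP_9c5702_nt.QS

open NumberField Pool.Agent.Lib.MP_9c5702_nt.Q4 Pool.Agent.Lib.MP_9c5702_nt.QB

open UniqueFactorizationMonoid

lemma icov_span_ne {K : Type} [Field K] [NumberField K] {m : ℕ} (hm : m ≠ 0) :
    Ideal.span {(m : 𝓞 K)} ≠ ⊥ := by
  rw [Ne, Ideal.span_singleton_eq_bot]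
  exact_mod_cast hm

lemma icov_card {K : Type} [Field K] [NumberField K] (hK : Module.finrank ℚ K = 3) {p : ℕ}
    (hp : p.Prime) : (normalizedFactors (Ideal.span {(p : 𝓞 K)})).card ≤ 3 := by
  have h0 := icov_span_ne (K := K) hp.ne_zero
  have h1 : Ideal.absNorm (Ideal.span {(p : 𝓞 K)}) = p ^ 3 := by
    rw [Ideal.absNorm_span_natCast, RingOfIntegers.rank, hK]
  have h2 : ((normalizedFactors (Ideal.span {(p : 𝓞 K)})).map Ideal.absNorm).prod = p ^ 3 := by
    rw [← map_multiset_prod, Ideal.prod_normalizedFactors_eq_self h0, h1]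
  have h3 := Multiset.prod_dvd_prod_of_dvd (S := normalizedFactors (Ideal.span {(p : 𝓞 K)}))
    (fun _ => p) Ideal.absNorm (fun P hP => by
      have hd : Ideal.absNorm P ∣ p ^ 3 := h1 ▸ map_dvd _ (dvd_of_mem_normalizedFactors hP)
      obtain ⟨i, -, hi⟩ := (Nat.dvd_prime_pow hp).1 hd
      have hi0 : i ≠ 0 := by
        rintro rfl
        exact ((Ideal.mem_normalizedFactors_iff h0).1 hP).1.ne_top
          (Ideal.absNorm_eq_one_iff.1 (by simpa using hi))
      exact hi ▸ dvd_pow_self p hi0)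
  rw [h2, Multiset.map_const', Multiset.prod_replicate] at h3
  exact (Nat.pow_dvd_pow_iff_le_right hp.one_lt).1 h3

open scoped Classical in
lemma icov_count {K : Type} [Field K] [NumberField K] (hK : Module.finrank ℚ K = 3) {N p : ℕ}
    (hN : N ≠ 0) (hp : p.Prime) {ξ : 𝓞 K} (hξ : ξ ∣ (N : 𝓞 K)) {P : Ideal (𝓞 K)}
    (hP : P ∈ normalizedFactors (Ideal.span {(p : 𝓞 K)})) :
    (normalizedFactors (Ideal.span {ξ})).count P ≤ 3 * N.factorization p := by
  obtain ⟨hPp, hle⟩ := (Ideal.mem_normalizedFactors_iff (icov_span_ne hp.ne_zero)).1 hP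
  have hm : N / p ^ N.factorization p ≠ 0 := (Nat.ordCompl_pos p hN).ne'
  have hξ0 : Ideal.span {ξ} ≠ ⊥ := by
    rw [Ne, Ideal.span_singleton_eq_bot]
    rintro rfl
    exact hN (by exact_mod_cast zero_dvd_iff.1 hξ)
  have h1 : normalizedFactors (Ideal.span {ξ}) ≤ normalizedFactors (Ideal.span {(N : 𝓞 K)}) :=
    (dvd_iff_normalizedFactors_le_normalizedFactors hξ0 (icov_span_ne hN)).1
      (Ideal.dvd_iff_le.2 (Ideal.span_singleton_le_span_singleton.2 hξ))
  have h2 : Ideal.span {(N : 𝓞 K)} = Ideal.span {(p : 𝓞 K)} ^ N.factorization p *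
      Ideal.span {((N / p ^ N.factorization p : ℕ) : 𝓞 K)} := by
    rw [Ideal.span_singleton_pow, Ideal.span_singleton_mul_span_singleton, ← Nat.cast_pow,
      ← Nat.cast_mul, Nat.ordProj_mul_ordCompl_eq_self]
  have h3 : (normalizedFactors (Ideal.span {((N / p ^ N.factorization p : ℕ) : 𝓞 K)})).count P
      = 0 := by
    refine Multiset.count_eq_zero.2 fun h => hPp.ne_top ?_
    have hle' := ((Ideal.mem_normalizedFactors_iff (icov_span_ne hm)).1 h).2
    obtain ⟨a, b, hab⟩ := (Nat.coprime_ordCompl hp hN).cast (R := 𝓞 K)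
    rw [Ideal.eq_top_iff_one, ← hab]
    exact P.add_mem (P.mul_mem_left _ (hle (Ideal.mem_span_singleton_self _)))
      (P.mul_mem_left _ (hle' (Ideal.mem_span_singleton_self _)))
  refine (Multiset.count_le_of_le P h1).trans ?_
  rw [h2, normalizedFactors_mul (pow_ne_zero _ (icov_span_ne hp.ne_zero)) (icov_span_ne hm),
    normalizedFactors_pow, Multiset.count_add, h3, Multiset.count_nsmul, add_zero, mul_comm]
  exact Nat.mul_le_mul_right _ ((Multiset.count_le_card _ _).trans (icov_card hK hp))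

theorem ideal_cov (K : Type) [Field K] [NumberField K] (hK : Module.finrank ℚ K = 3) (N : ℕ)
    (hN : N ≠ 0) :
    Cov {ξ : 𝓞 K | ξ ∣ (N : 𝓞 K)} (fun ξ ξ' => Associated ξ ξ') (N.divisors.card ^ 6) := by
  classical
  have hξ0 : ∀ ξ : 𝓞 K, ξ ∣ (N : 𝓞 K) → Ideal.span {ξ} ≠ ⊥ := by
    intro ξ hξ
    rw [Ne, Ideal.span_singleton_eq_bot]
    rintro rfl
    exact hN (by exact_mod_cast zero_dvd_iff.1 hξ)
  have h := cov_prod (Z := {ξ : 𝓞 K | ξ ∣ (N : 𝓞 K)})
    (fun m ξ ξ' => ∀ P : Ideal (𝓞 K), P.IsPrime → (m : 𝓞 K) ∈ P →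
      (normalizedFactors (Ideal.span {ξ})).count P = (normalizedFactors (Ideal.span {ξ'})).count P)
    (fun ξ ξ' P hP h1 => absurd ((Ideal.eq_top_iff_one P).2 (by simpa using h1)) hP.ne_top)
    (fun m m' _ ξ ξ' h1 h2 P hP hm => by
      rw [Nat.cast_mul] at hm
      exact (hP.mem_or_mem hm).elim (h1 P hP) (h2 P hP))
    N.primeFactors (fun p hp => Nat.prime_of_mem_primeFactors hp) N.factorization
    (fun p => (N.factorization p + 1) ^ 6) (fun p hp => by
      have hpp := Nat.prime_of_mem_primeFactors hp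
      refine cov_mono (cov_label
        (r := fun ξ ξ' => ∀ P : Ideal (𝓞 K), P.IsPrime → ((p ^ N.factorization p : ℕ) : 𝓞 K) ∈ P →
          (normalizedFactors (Ideal.span {ξ})).count P =
            (normalizedFactors (Ideal.span {ξ'})).count P)
        ((normalizedFactors (Ideal.span {(p : 𝓞 K)})).toFinset.pi
          fun _ => Finset.range (3 * N.factorization p + 1))
        (fun ξ P _ => (normalizedFactors (Ideal.span {ξ})).count P) (fun ξ hξ => ?_)
        (fun ξ _ ξ' _ he P hP hm => ?_)) (fun _ h => h) (fun _ _ _ _ h => h) ?_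
      · refine Finset.mem_pi.2 fun P hP => Finset.mem_range.2 (Nat.lt_succ_of_le ?_)
        exact icov_count hK hN hpp hξ (Multiset.mem_toFinset.1 hP)
      · rw [Nat.cast_pow] at hm
        have hP' : P ∈ (normalizedFactors (Ideal.span {(p : 𝓞 K)})).toFinset :=
          Multiset.mem_toFinset.2 ((Ideal.mem_normalizedFactors_iff (icov_span_ne hpp.ne_zero)).2
            ⟨hP, (Ideal.span_singleton_le_iff_mem P).2 (hP.mem_of_pow_mem _ hm)⟩)
        exact congrFun (congrFun he P) hP'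
      · rw [Finset.card_pi, Finset.prod_const, Finset.card_range]
        have hc : (normalizedFactors (Ideal.span {(p : 𝓞 K)})).toFinset.card ≤ 3 :=
          (Multiset.toFinset_card_le _).trans (icov_card hK hpp)
        refine (Nat.pow_le_pow_right (Nat.succ_pos _) hc).trans ?_
        rw [show 6 = 2 * 3 from rfl, pow_mul]
        refine Nat.pow_le_pow_left ?_ 3
        nlinarith [Nat.le_mul_self (N.factorization p)])
  rw [← Nat.prod_factorization_eq_prod_primeFactors (fun p k => p ^ k),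
    Nat.prod_factorization_pow_eq_self hN, Finset.prod_pow, ← Nat.card_divisors hN] at h
  refine cov_mono h (fun _ h => h) (fun ξ hξ ξ' hξ' he => ?_) le_rfl
  have key : ∀ ζ : 𝓞 K, ζ ∣ (N : 𝓞 K) → ∀ P ∈ normalizedFactors (Ideal.span {ζ}),
      P.IsPrime ∧ (N : 𝓞 K) ∈ P := fun ζ hζ P hP => by
    obtain ⟨h1, h2⟩ := (Ideal.mem_normalizedFactors_iff (hξ0 ζ hζ)).1 hP
    exact ⟨h1, h2 (Ideal.mem_span_singleton.2 hζ)⟩
  rw [← Ideal.span_singleton_eq_span_singleton,
    ← Ideal.prod_normalizedFactors_eq_self (hξ0 ξ hξ),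
    ← Ideal.prod_normalizedFactors_eq_self (hξ0 ξ' hξ')]
  congr 1
  ext P
  by_cases hP : P.IsPrime ∧ (N : 𝓞 K) ∈ P
  · exact he P hP.1 hP.2
  · rw [Multiset.count_eq_zero.2 fun h => hP (key ξ hξ P h),
      Multiset.count_eq_zero.2 fun h => hP (key ξ' hξ' P h)]

end Pool.Agent.Lib.MP_9c5702_nt.QS
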