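import Pool.Agent.Lib.MP_9c5702_nt.QS.Defs
import Pool.Agent.Lib.MP_9c5702_nt.Q4.Red

/-! The bound for square divisors contains the bound for cube divisors. -/

set_option autoImplicit false

namespace Pool.Agent.Lib.MP_9c5702_nt.QS

open Pool.Agent.Lib.MP_9c5702_nt.Q4 Pool.Agent.Lib.MP_9c5702_nt.QB

theorem implies_cube
    (h : ∀ ε : ℝ, 0 < ε → ∃ C : ℝ, ∀ (n q : ℕ) (b : ℕ → ℕ), 1 ≤ n → 1 ≤ q →
      (∀ p ∈ q.primeFactors, 2 * q.factorization p ≤ b p ∧ p ^ b p ∣ n) →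
      (r33 n : ℝ) ≤ C * (n : ℝ) ^ ε * q *
        (max 1 ((n : ℝ) ^ ((1 : ℝ) / 3) * ∏ p ∈ q.primeFactors,
          (p : ℝ) ^ ((b p : ℝ) / 6 - √((q.factorization p : ℝ) * b p)))) ^ (2 / √3) *
        (max 1 ((n : ℝ) / (q : ℝ) ^ 3)) ^ ((1 : ℝ) / 6)) :
    ∀ ε : ℝ, 0 < ε → ∃ C : ℝ, ∀ (n q : ℕ) (b : ℕ → ℕ), 1 ≤ n → 1 ≤ q →
      (∀ p ∈ q.primeFactors, 3 * q.factorization p ≤ b p ∧ p ^ b p ∣ n) →
      (r33 n : ℝ) ≤ C * (n : ℝ) ^ ε * q *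
        (max 1 ((n : ℝ) ^ ((1 : ℝ) / 3) * ∏ p ∈ q.primeFactors,
          (p : ℝ) ^ ((b p : ℝ) / 6 - √((q.factorization p : ℝ) * b p)))) ^ (2 / √3) *
        max (((n : ℝ) / (q : ℝ) ^ 3) ^ ((1 : ℝ) / 6)) ((n : ℝ) ^ ((1 : ℝ) / 27)) := by
  intro ε hε
  obtain ⟨C, hC⟩ := h ε hε
  refine ⟨max C 0, fun n q b hn hq hb => ?_⟩
  have hn1 : (1 : ℝ) ≤ n := by exact_mod_cast hn
  refine (hC n q b hn hq fun p hp => ⟨by have := (hb p hp).1; omega, (hb p hp).2⟩).trans ?_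
  have h1 : (max 1 ((n : ℝ) / (q : ℝ) ^ 3)) ^ ((1 : ℝ) / 6) ≤
      max (((n : ℝ) / (q : ℝ) ^ 3) ^ ((1 : ℝ) / 6)) ((n : ℝ) ^ ((1 : ℝ) / 27)) := by
    rcases le_total 1 ((n : ℝ) / (q : ℝ) ^ 3) with h2 | h2
    · rw [max_eq_right h2]
      exact le_max_left _ _
    · rw [max_eq_left h2, Real.one_rpow]
      exact (Real.one_le_rpow hn1 (by norm_num)).trans (le_max_right _ _)
  have h2 : C ≤ max C 0 := le_max_left _ _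
  have h3 : 0 ≤ max C 0 := le_max_right _ _
  gcongr

end Pool.Agent.Lib.MP_9c5702_nt.QS
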