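import Pool.Agent.Lib.MP_9c5702_nt.QS.Defs
import Pool.Agent.Lib.MP_9c5702_nt.QB.ChartK

/-! The points of a class lie in a lattice of index `q ^ 3`. -/

set_option autoImplicit false

namespace Pool.Agent.Lib.MP_9c5702_nt.QS

open Pool.Agent.Lib.MP_9c5702_nt.Q4 Pool.Agent.Lib.MP_9c5702_nt.QB

theorem lat_of_class (n q B : ℕ) (hn : q ^ 2 ∣ n) (W : Finset V) (hW : ∀ P ∈ W, P ∈ Sol n B)
    (hp : Pw (Crs (3 * (q : ℤ))) W) (h3 : Pw (Cong 3) W) : Lat (q : ℤ) W := by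
  rcases W.eq_empty_or_nonempty with rfl | ⟨P0, hP0⟩
  · exact ⟨0, 0, 0, fun P hP => absurd hP (Finset.notMem_empty P)⟩
  obtain ⟨-, h0, e, he⟩ := hW P0 hP0
  obtain ⟨U, hU⟩ := qchart_U e P0 he
  obtain ⟨N0, hN0⟩ : ∃ N0 : V, ∀ k, N0 k = P0 k ^ 2 := ⟨fun k => P0 k ^ 2, fun _ => rfl⟩
  obtain ⟨ρ, hρ⟩ : ∃ ρ : V, ρ = crs P0 U := ⟨_, rfl⟩
  obtain ⟨a, ha⟩ := hn
  have hn' : (n : ℤ) = (q : ℤ) ^ 2 * a := by rw [ha]; push_cast; rfl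
  have hco : IsCoprime (dl e N0 ρ) (q : ℤ) := by
    refine ⟨1, dot e U * (q * a), ?_⟩
    unfold F at h0
    simp only [hρ, dot, dl, crs_0, crs_1, crs_2, hN0] at he ⊢
    linear_combination (U 0 * P0 0 ^ 2 + U 1 * P0 1 ^ 2 + U 2 * P0 2 ^ 2) * he + hU -
      (e 0 * U 0 + e 1 * U 1 + e 2 * U 2) * (h0 + hn')
  obtain ⟨D, y, hy⟩ := hco.pow_right (n := 3)
  refine ⟨P0, crs e N0, crs ρ e, fun P hP => ?_⟩
  obtain ⟨z, κ, l', hz, ⟨s, hs⟩, hT, -, -, hP'⟩ := chartk_pt n q 3 e P0 P he h0 (hW P hP).2.1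
    (hW P hP).2.2 (hp P hP P0 hP0) (h3 P hP P0 hP0)
  obtain ⟨w0, hw0⟩ := hz 0
  obtain ⟨w1, hw1⟩ := hz 1
  obtain ⟨w2, hw2⟩ := hz 2
  have hu : dot ρ z = q * (ρ 0 * w0 + ρ 1 * w1 + ρ 2 * w2) := by
    unfold dot; rw [hw0, hw1, hw2]; ring
  have ht : dot N0 z = (q : ℤ) ^ 2 * (a * κ - 3 * (P0 0 * w0 ^ 2 + P0 1 * w1 ^ 2 + P0 2 * w2 ^ 2) -
      3 * q * (w0 ^ 3 + w1 ^ 3 + w2 ^ 3)) := by
    unfold qchartT at hT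
    unfold dot
    rw [hN0, hN0, hN0]
    rw [hw0, hw1, hw2] at hT ⊢
    linear_combination hT + κ * hn'
  obtain ⟨u, hu'⟩ : ∃ u, dot ρ z = q * u := ⟨_, hu⟩
  obtain ⟨t, ht'⟩ : ∃ t, dot N0 z = (q : ℤ) ^ 2 * t := ⟨_, ht⟩
  refine ⟨dot e P, 3 * dot e P * D * u, 3 * dot e P * D * t, fun k => ?_⟩
  obtain ⟨x, hx⟩ := hP' k
  have hc := cramer e N0 ρ z k
  rw [hs, hu', ht'] at hc
  refine ⟨x + 3 * dot e P * (D * q * s * crs N0 ρ k + y * z k), ?_⟩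
  linear_combination hx + 3 * dot e P * D * hc - 3 * dot e P * z k * hy

theorem lat_det (q : ℤ) (W : Finset V) (h : Lat q W) (P Q R : V) (hP : P ∈ W) (hQ : Q ∈ W)
    (hR : R ∈ W) : q ^ 3 ∣ dl P Q R := by
  obtain ⟨g0, g1, g2, hg⟩ := h
  obtain ⟨a0, a1, a2, h1⟩ := hg P hP
  obtain ⟨b0, b1, b2, h2⟩ := hg Q hQ
  obtain ⟨c0, c1, c2, h3⟩ := hg R hR
  have h4 := l1chart_dl_cong (P' := fun k => a0 * g0 k + q * a1 * g1 k + q ^ 2 * a2 * g2 k)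
    (Q' := fun k => b0 * g0 k + q * b1 * g1 k + q ^ 2 * b2 * g2 k)
    (R' := fun k => c0 * g0 k + q * c1 * g1 k + q ^ 2 * c2 * g2 k) h1 h2 h3
  have e : dl (fun k => a0 * g0 k + q * a1 * g1 k + q ^ 2 * a2 * g2 k)
      (fun k => b0 * g0 k + q * b1 * g1 k + q ^ 2 * b2 * g2 k)
      (fun k => c0 * g0 k + q * c1 * g1 k + q ^ 2 * c2 * g2 k) =
      q ^ 3 * ((a0 * (b1 * c2 - b2 * c1) + a1 * (b2 * c0 - b0 * c2) + a2 * (b0 * c1 - b1 * c0)) *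
        dl g0 g1 g2) := by
    simp only [dot, dl, crs_0, crs_1, crs_2]; ring
  rw [e] at h4
  have h5 := dvd_add h4 (dvd_mul_right (q ^ 3)
    ((a0 * (b1 * c2 - b2 * c1) + a1 * (b2 * c0 - b0 * c2) + a2 * (b0 * c1 - b1 * c0)) *
      dl g0 g1 g2))
  rwa [sub_add_cancel] at h5

end Pool.Agent.Lib.MP_9c5702_nt.QS
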