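import Pool.Agent.Lib.MP_9c5702_nt.QS.UBox
import Pool.Agent.Lib.MP_9c5702_nt.QS.ICov

/-! Divisors of an integer in a cubic field with bounded conjugates. -/

set_option autoImplicit false

namespace Pool.Agent.Lib.MP_9c5702_nt.QS

open NumberField Pool.Agent.Lib.MP_9c5702_nt.Q4 Pool.Agent.Lib.MP_9c5702_nt.QB

lemma ncount_low (K : Type) [Field K] [NumberField K] (hK : Module.finrank ℚ K = 3) (j : ℕ)
    (ξ : 𝓞 K) (h0 : ξ ≠ 0) (h2 : ∀ σ : K →+* ℂ, ‖σ (ξ : K)‖ ≤ 2 ^ j) (σ : K →+* ℂ) :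
    1 ≤ ‖σ (ξ : K)‖ * ((2 : ℝ) ^ j) ^ 2 := by
  have h1 := norm_norm_le_norm_mul_house_pow (ξ : K) σ
  have hh : house (ξ : K) ≤ (2 : ℝ) ^ j := by
    rw [house, pi_norm_le_iff_of_nonneg (by positivity)]
    intro τ
    exact h2 τ
  have hn : (1 : ℝ) ≤ ‖Algebra.norm ℚ (ξ : K)‖ := by
    rw [← Algebra.coe_norm_int, ← Rat.norm_cast_real, Real.norm_eq_abs, Rat.cast_intCast,
      ← Int.cast_abs, ← Int.cast_one, Int.cast_le]
    exact Int.one_le_abs (Algebra.norm_ne_zero_iff.mpr h0)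
  rw [hK] at h1
  have h3 : house (ξ : K) ^ (3 - 1) ≤ ((2 : ℝ) ^ j) ^ 2 :=
    pow_le_pow_left₀ (house_nonneg _) hh 2
  exact hn.trans (h1.trans (mul_le_mul_of_nonneg_left h3 (norm_nonneg _)))

lemma ncount_log {j : ℕ} {r : ℝ} (h1 : 1 ≤ r * ((2 : ℝ) ^ j) ^ 2) (h2 : r ≤ 2 ^ j) :
    0 < r ∧ Int.log 2 r ∈ Finset.Icc (-(2 * (j : ℤ))) (j : ℤ) := by
  have hp : (0 : ℝ) < ((2 : ℝ) ^ j) ^ 2 := by positivity
  have hr : 0 < r := by
    by_contra h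
    have := mul_nonpos_of_nonpos_of_nonneg (not_lt.1 h) hp.le
    linarith
  refine ⟨hr, Finset.mem_Icc.2 ⟨?_, ?_⟩⟩
  · rw [← Int.zpow_le_iff_le_log (by norm_num) hr]
    have e : ((2 : ℕ) : ℝ) ^ (-(2 * (j : ℤ))) = (((2 : ℝ) ^ j) ^ 2)⁻¹ := by
      rw [zpow_neg, ← pow_mul, mul_comm j 2, ← zpow_natCast]
      push_cast
      rfl
    rw [e, inv_le_iff_one_le_mul₀ hp]
    exact h1
  · have : Int.log 2 r < (j : ℤ) + 1 := by
      rw [← Int.lt_zpow_iff_log_lt (by norm_num) hr]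
      have e : ((2 : ℕ) : ℝ) ^ ((j : ℤ) + 1) = (2 : ℝ) ^ j * 2 := by
        rw [zpow_add_one₀ (by norm_num), zpow_natCast]
        push_cast
        rfl
      rw [e]
      have : (0 : ℝ) < 2 ^ j := by positivity
      linarith
    omega

lemma ncount_ratio {r s : ℝ} (hs : 0 < s) (h : Int.log 2 r = Int.log 2 s) : r / s ≤ 2 := by
  have h1 := Int.lt_zpow_succ_log_self (b := 2) (by norm_num) r
  have h2 := Int.zpow_log_le_self (b := 2) (by norm_num) hs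
  rw [h, zpow_add_one₀ (by norm_num)] at h1
  rw [div_le_iff₀ hs]
  push_cast at h1 h2
  linarith

theorem norm_count (K : Type) [Field K] [NumberField K] (hK : Module.finrank ℚ K = 3) (N j : ℕ)
    (hN : N ≠ 0) (U : Finset (𝓞 K)) (h1 : ∀ ξ ∈ U, ξ ∣ (N : 𝓞 K))
    (h2 : ∀ ξ ∈ U, ∀ σ : K →+* ℂ, ‖σ (ξ : K)‖ ≤ 2 ^ j) :
    U.card ≤ N.divisors.card ^ 6 * ((3 * j + 1) ^ 3 * CU) := by
  classical
  refine ideal_cov K hK N hN U _ (fun ξ hξ => h1 ξ hξ) fun W hW hp => ?_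
  have h0 : ∀ ξ ∈ W, ξ ≠ 0 := by
    intro ξ hξ h
    have := h1 ξ (hW hξ)
    rw [h, zero_dvd_iff] at this
    exact hN (by exact_mod_cast this)
  have hl : ∀ ξ ∈ W, ∀ σ : K →+* ℂ, 0 < ‖σ (ξ : K)‖ ∧
      Int.log 2 ‖σ (ξ : K)‖ ∈ Finset.Icc (-(2 * (j : ℤ))) (j : ℤ) := fun ξ hξ σ =>
    ncount_log (ncount_low K hK j ξ (h0 ξ hξ) (h2 ξ (hW hξ)) σ) (h2 ξ (hW hξ) σ)
  have hc : (Fintype.piFinset fun _ : K →+* ℂ =>
      Finset.Icc (-(2 * (j : ℤ))) (j : ℤ)).card = (3 * j + 1) ^ 3 := by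
    rw [Fintype.card_piFinset, Finset.prod_const, Finset.card_univ,
      NumberField.Embeddings.card K ℂ, hK, Int.card_Icc]
    congr 1
    omega
  rw [mul_comm, ← hc]
  refine Finset.card_le_mul_card_image_of_maps_to
    (f := fun (ξ : 𝓞 K) (σ : K →+* ℂ) => Int.log 2 ‖σ (ξ : K)‖)
    (fun ξ hξ => Fintype.mem_piFinset.2 fun σ => (hl ξ hξ σ).2) CU fun ℓ _ => ?_
  rcases (W.filter fun ξ : 𝓞 K =>
      (fun σ : K →+* ℂ => Int.log 2 ‖σ (ξ : K)‖) = ℓ).eq_empty_or_nonempty with he | ⟨ξ0, hξ0⟩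
  · rw [he]
    exact Nat.zero_le _
  obtain ⟨hξ0W, hξ0l⟩ := Finset.mem_filter.1 hξ0
  have hne : (ξ0 : K) ≠ 0 := by
    intro h
    exact h0 ξ0 hξ0W (by simpa using h)
  have hinj : Function.Injective fun ξ : 𝓞 K => (ξ : K) / (ξ0 : K) := by
    intro a b hab
    exact RingOfIntegers.ext ((div_left_inj' hne).1 hab)
  rw [← Finset.card_image_of_injective _ hinj]
  refine unit_box K hK _ fun x hx => ?_
  obtain ⟨ξ, hξ, rfl⟩ := Finset.mem_image.1 hx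
  obtain ⟨hξW, hξl⟩ := Finset.mem_filter.1 hξ
  constructor
  · obtain ⟨u, hu⟩ := (hp ξ0 hξ0W ξ hξW).dvd
    have : (ξ : K) / (ξ0 : K) = (u : K) := by
      rw [div_eq_iff hne, hu]
      simp [mul_comm]
    rw [this]
    exact u.isIntegral_coe
  · intro σ
    rw [map_div₀, norm_div]
    exact ncount_ratio (hl ξ0 hξ0W σ).1 (congrFun (hξl.trans hξ0l.symm) σ)

end Pool.Agent.Lib.MP_9c5702_nt.QS
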