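import Pool.Agent.Lib.MP_9c5702_nt.QS.Thue
import Pool.Agent.Lib.MP_9c5702_nt.Q4.Iso

/-! Non-special planes through the origin. -/

set_option autoImplicit false

namespace Pool.Agent.Lib.MP_9c5702_nt.QS

open Pool.Agent.Lib.MP_9c5702_nt.Q4 Pool.Agent.Lib.MP_9c5702_nt.QB

lemma orig_irr (ψ : V) (hψ : NS ψ) {i j k : Fin 3} (hij : i ≠ j) (hik : i ≠ k) (hjk : j ≠ k)
    (hk : ψ k ≠ 0) (s t : ℚ)
    (h : ((ψ k ^ 3 - ψ i ^ 3 : ℤ) : ℚ) * s ^ 3 + ((-3 * ψ i ^ 2 * ψ j : ℤ) : ℚ) * s ^ 2 * t +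
      ((-3 * ψ i * ψ j ^ 2 : ℤ) : ℚ) * s * t ^ 2 + ((ψ k ^ 3 - ψ j ^ 3 : ℤ) : ℚ) * t ^ 3 = 0) :
    s = 0 ∧ t = 0 := by
  have hk' : (ψ k : ℚ) ≠ 0 := by exact_mod_cast hk
  obtain ⟨v, hi, hj, hv⟩ : ∃ v : Fin 3 → ℚ, v i = ψ k * s ∧ v j = ψ k * t ∧
      v k = -(ψ i * s + ψ j * t) := by
    refine ⟨fun x => if x = i then ψ k * s else if x = j then ψ k * t else -(ψ i * s + ψ j * t),
      by simp, by simp [hij.symm], by simp [hik.symm, hjk.symm]⟩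
  have e1 : (ψ 0 : ℚ) * v 0 + ψ 1 * v 1 + ψ 2 * v 2 = ψ i * v i + ψ j * v j + ψ k * v k := by
    clear hi hj hv h hk hk'
    fin_cases i <;> fin_cases j <;> fin_cases k <;> simp_all <;> ring
  have e2 : v 0 ^ 3 + v 1 ^ 3 + v 2 ^ 3 = v i ^ 3 + v j ^ 3 + v k ^ 3 := by
    clear hi hj hv h hk hk' e1
    fin_cases i <;> fin_cases j <;> fin_cases k <;> simp_all <;> ring
  have hv0 : v = 0 := by
    by_contra hne
    refine isotropic ψ hψ v hne ?_ ?_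
    · rw [e1, hi, hj, hv]; ring
    · rw [e2, hi, hj, hv]
      push_cast at h
      linear_combination h
  rw [hv0] at hi hj
  exact ⟨(mul_eq_zero.1 hi.symm).resolve_left hk', (mul_eq_zero.1 hj.symm).resolve_left hk'⟩

lemma orig_three {x y z Ψ : ℤ} (hx : |x| ≤ Ψ) (hy : |y| ≤ Ψ) (hz : |z| ≤ Ψ) :
    |x * y * z| ≤ Ψ ^ 3 := by
  have h0 : 0 ≤ Ψ := (abs_nonneg _).trans hx
  rw [abs_mul, abs_mul, show Ψ ^ 3 = Ψ * Ψ * Ψ by ring]
  gcongr

lemma orig_log (n T : ℕ) (hn : 1 ≤ n) (hT : TB n T) :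
    ∃ j : ℕ, 4 * ((4 * n) ^ 13) ^ 4 ≤ 2 ^ j ∧ j + 1 ≤ T := by
  have hN : 4 ≤ 4 * n := by omega
  have hp : (4 * n) ^ 53 ≠ 0 := by positivity
  refine ⟨Nat.log 2 ((4 * n) ^ 53) + 1, ?_, ?_⟩
  · refine le_trans ?_ (Nat.lt_pow_succ_log_self (by norm_num) _).le
    calc 4 * ((4 * n) ^ 13) ^ 4 ≤ (4 * n) * ((4 * n) ^ 13) ^ 4 := Nat.mul_le_mul_right _ hN
      _ = (4 * n) ^ 53 := by ring
  · have h1 : 2 ^ (Nat.log 2 ((4 * n) ^ 53) + 1) ≤ (4 * n) ^ 60 := by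
      have h2 := Nat.pow_log_le_self 2 hp
      calc 2 ^ (Nat.log 2 ((4 * n) ^ 53) + 1) = 2 ^ (Nat.log 2 ((4 * n) ^ 53)) * 2 := pow_succ _ _
        _ ≤ (4 * n) ^ 53 * (4 * n) := Nat.mul_le_mul h2 (by omega)
        _ = (4 * n) ^ 54 := (pow_succ _ _).symm
        _ ≤ (4 * n) ^ 60 := Nat.pow_le_pow_right (by omega) (by norm_num)
    have h3 := hT _ (Nat.one_le_pow _ _ (by norm_num)) h1
    rwa [Nat.divisors_prime_pow Nat.prime_two, Finset.card_map, Finset.card_range] at h3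

theorem origin_count (n B T : ℕ) (hn : 1 ≤ n) (hB : B ≤ n) (hT : TB n T) (ψ : V) (hψ : NS ψ)
    (hb : ∀ i, |ψ i| ≤ (4 * (B : ℤ)) ^ 4) (W : Finset V) (hW : ∀ P ∈ W, P ∈ Sol n B)
    (hpl : ∀ P ∈ W, dot ψ P = 0) : W.card ≤ 27 * CU * T ^ 9 := by
  classical
  obtain ⟨k, hk⟩ : ∃ k, ψ k ≠ 0 := by
    by_contra hc
    push Not at hc
    exact hψ 0 1 (by decide) (by rw [hc 0, hc 1])
  obtain ⟨i, j, hij, hik, hjk⟩ := other_two k
  obtain ⟨J, hJ, hJT⟩ := orig_log n T hn hT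
  have hirr := orig_irr ψ hψ hij hik hjk hk
  obtain ⟨N, hN⟩ : ∃ N : ℤ, N = 4 * (n : ℤ) := ⟨_, rfl⟩
  have hn' : (1 : ℤ) ≤ n := by exact_mod_cast hn
  have hB' : (B : ℤ) ≤ n := by exact_mod_cast hB
  have hN4 : 4 ≤ N := by omega
  have hb' : ∀ x, |ψ x| ≤ N ^ 4 := fun x =>
    (hb x).trans (pow_le_pow_left₀ (by positivity) (by omega) 4)
  have h3 : ∀ x y z, |ψ x * ψ y * ψ z| ≤ N ^ 12 := fun x y z => by
    have := orig_three (hb' x) (hb' y) (hb' z)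
    rwa [← pow_mul] at this
  have h12 : 0 < N ^ 12 := by positivity
  have h13 : 4 * N ^ 12 ≤ N ^ 13 := by
    rw [show N ^ 13 = N * N ^ 12 by ring]
    exact mul_le_mul_of_nonneg_right hN4 h12.le
  have hH : (((4 * n) ^ 13 : ℕ) : ℤ) = N ^ 13 := by rw [hN]; push_cast; ring
  have hNH : N ≤ N ^ 13 := le_self_pow₀ (by omega) (by norm_num)
  have hd : ∀ x y, |ψ x ^ 3 - ψ y ^ 3| ≤ N ^ 13 := fun x y => by
    have e1 := abs_le.1 (h3 x x x)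
    have e2 := abs_le.1 (h3 y y y)
    rw [abs_le]
    constructor <;> nlinarith [e1.1, e1.2, e2.1, e2.2]
  have ha0 : ψ k ^ 3 - ψ i ^ 3 ≠ 0 := fun e => by
    have := (hirr 1 0 (by rw [e]; simp)).1
    exact one_ne_zero this
  have hm : ψ k ^ 3 * (n : ℤ) ≠ 0 := mul_ne_zero (pow_ne_zero _ hk) (by omega)
  have hinj : Set.InjOn (fun P : V => (P i, P j)) W := by
    intro P hP P' hP' e
    have e1 : P i = P' i := congrArg Prod.fst e
    have e2 : P j = P' j := congrArg Prod.snd e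
    refine vec_ext_perm hij hik hjk e1 e2 (mul_left_cancel₀ hk ?_)
    have f1 := hpl P hP
    have f2 := hpl P' hP'
    rw [dot_perm _ _ hij hik hjk] at f1 f2
    rw [e1, e2] at f1
    linear_combination f1 - f2
  have key := thue_count (ψ k ^ 3 - ψ i ^ 3) (-3 * ψ i ^ 2 * ψ j) (-3 * ψ i * ψ j ^ 2)
    (ψ k ^ 3 - ψ j ^ 3) (ψ k ^ 3 * n) ((4 * n) ^ 13) J hirr hm (Nat.one_le_pow _ _ (by omega))
    (by rw [hH]; exact hd k i)
    (by
      have e1 := abs_le.1 (h3 i i j)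
      rw [hH, abs_le]
      constructor <;> nlinarith [e1.1, e1.2])
    (by
      have e1 := abs_le.1 (h3 i j j)
      rw [hH, abs_le]
      constructor <;> nlinarith [e1.1, e1.2])
    (by rw [hH]; exact hd k j) hJ (W.image fun P : V => (P i, P j))
    (by
      intro z hz
      obtain ⟨P, hP, rfl⟩ := Finset.mem_image.1 hz
      obtain ⟨hc, hF, -⟩ := hW P hP
      have f1 := hpl P hP
      rw [dot_perm _ _ hij hik hjk] at f1
      rw [F_perm _ hij hik hjk] at hF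
      have f2 : ψ k * P k = -(ψ i * P i + ψ j * P j) := by linear_combination f1
      have f3 : (ψ k * P k) ^ 3 = (-(ψ i * P i + ψ j * P j)) ^ 3 := by rw [f2]
      have hx : ∀ x, |P x| ≤ N ^ 13 := fun x => by
        have := hc x
        rw [abs_of_pos this.1]
        omega
      refine ⟨?_, by rw [hH]; exact hx i, by rw [hH]; exact hx j⟩
      dsimp only
      linear_combination ψ k ^ 3 * hF - f3)
  rw [Finset.card_image_of_injOn hinj] at key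
  have hR : ((ψ k ^ 3 - ψ i ^ 3) ^ 2 * (ψ k ^ 3 * n)).natAbs.divisors.card ≤ T := by
    refine hT _ (Int.natAbs_pos.2 (mul_ne_zero (pow_ne_zero _ ha0) hm)) ?_
    have e0 : |ψ k ^ 3| ≤ N ^ 12 := by
      have := h3 k k k
      rwa [show ψ k * ψ k * ψ k = ψ k ^ 3 by ring] at this
    have e1 : |(ψ k ^ 3 - ψ i ^ 3) ^ 2 * (ψ k ^ 3 * n)| ≤ (N ^ 13) ^ 2 * (N ^ 12 * N) := by
      rw [abs_mul, abs_mul, abs_pow]
      have e2 := hd k i
      have e3 : |(n : ℤ)| ≤ N := by rw [abs_of_pos (by omega)]; omega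
      gcongr
    have e4 : (N ^ 13) ^ 2 * (N ^ 12 * N) ≤ N ^ 60 := by
      rw [show (N ^ 13) ^ 2 * (N ^ 12 * N) = N ^ 39 by ring]
      exact pow_le_pow_right₀ (by omega) (by norm_num)
    have e5 : (((4 * n) ^ 60 : ℕ) : ℤ) = N ^ 60 := by rw [hN]; push_cast; ring
    have e6 := e1.trans e4
    rw [← e5, ← Int.natCast_natAbs] at e6
    exact_mod_cast e6
  have hJ3 : 3 * J + 1 ≤ 3 * T := by omega
  calc W.card ≤ _ := key
    _ ≤ T ^ 6 * ((3 * T) ^ 3 * CU) := by gcongr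
    _ = 27 * CU * T ^ 9 := by ring

end Pool.Agent.Lib.MP_9c5702_nt.QS
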