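import Pool.Agent.Lib.MP_9c5702_nt.QS.Defs
import Pool.Agent.Lib.MP_9c5702_nt.QB.PDet

/-! The power of one prime in the determinant of low monomials. -/

set_option autoImplicit false

namespace Pool.Agent.Lib.MP_9c5702_nt.QS

open Pool.Agent.Lib.MP_9c5702_nt.Q4 Pool.Agent.Lib.MP_9c5702_nt.QB

theorem wab2 (a b D s : ℕ) (ha : 1 ≤ a) (hab : 2 * a ≤ b) (hba : b ≤ 36 * a) (hD : 1 ≤ D)
    (hs : 2 * s = 3 * D ^ 2 + 3 * D + 2) :
    ∃ w τ : ℕ, w + ∑ k ∈ Finset.Icc 1 τ, 3 * Nab a b k ≤ τ * s ∧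
      √((a : ℝ) * b) * (D : ℝ) ^ 3 - 200 * b * (D : ℝ) ^ 2 ≤ w := by
  refine wts_cut (fun k => 3 * Nab a b k) s (Nat.sqrt (a * b * D ^ 2)) _ ?_
  obtain ⟨t1, t2⟩ := wts_sqrt (a * b) D
  have h1 := Nab_sum a b (Nat.sqrt (a * b * D ^ 2)) ha (by omega)
  generalize ∑ k ∈ Finset.Icc 1 (Nat.sqrt (a * b * D ^ 2)), 3 * Nab a b k = X at h1 ⊢
  generalize Nat.sqrt (a * b * D ^ 2) = τ at h1 t1 t2 ⊢
  rw [Nat.cast_mul] at t1 t2
  have a1 : (1 : ℝ) ≤ a := by exact_mod_cast ha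
  have a2 : (2 : ℝ) * a ≤ b := by exact_mod_cast hab
  have a3 : (b : ℝ) ≤ 36 * a := by exact_mod_cast hba
  have a4 : (1 : ℝ) ≤ D := by exact_mod_cast hD
  have a5 : (2 : ℝ) * s = 3 * (D : ℝ) ^ 2 + 3 * D + 2 := by exact_mod_cast hs
  have a6 : (2 : ℝ) * a * b * X ≤ ((τ : ℝ) + a + b + 1) ^ 3 := by exact_mod_cast h1
  have b0 : (0 : ℝ) < b := by linarith
  have x0 : 0 < √((a : ℝ) * b) := Real.sqrt_pos.2 (by positivity)
  have x2 : √((a : ℝ) * b) ^ 2 = a * b := Real.sq_sqrt (by positivity)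
  generalize √((a : ℝ) * b) = x at x0 x2 t1 t2 ⊢
  have b6 : (b : ℝ) ≤ 6 * x := by
    refine (pow_le_pow_iff_left₀ b0.le (by positivity) two_ne_zero).1 ?_
    nlinarith
  have c1 : ((τ : ℝ) + a + b + 1) ^ 3 ≤ (x * D + 2 * b) ^ 3 :=
    pow_le_pow_left₀ (by positivity) (by linarith) 3
  have c2 : (b : ℝ) * b ≤ 36 * x ^ 2 := by nlinarith
  have d2 : (D : ℝ) ≤ (D : ℝ) ^ 2 := by nlinarith
  have c3 : (x * D + 2 * b) ^ 3 ≤ 2 * x ^ 2 * (x * (D : ℝ) ^ 3 / 2 + 183 * b * (D : ℝ) ^ 2) := by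
    have e1 : x * D * b * b ≤ x * D * b * (6 * x) := mul_le_mul_of_nonneg_left b6 (by positivity)
    have e2 : (b : ℝ) * (b * b) ≤ b * (36 * x ^ 2) := mul_le_mul_of_nonneg_left c2 b0.le
    have e3 : x ^ 2 * b * D ≤ x ^ 2 * b * (D : ℝ) ^ 2 := mul_le_mul_of_nonneg_left d2 (by positivity)
    have e4 : x ^ 2 * b * 1 ≤ x ^ 2 * b * (D : ℝ) ^ 2 :=
      mul_le_mul_of_nonneg_left (a4.trans d2) (by positivity)
    linarith
  have c4 : (X : ℝ) ≤ x * (D : ℝ) ^ 3 / 2 + 183 * b * (D : ℝ) ^ 2 := by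
    refine le_of_mul_le_mul_left (a := 2 * x ^ 2) ?_ (by positivity)
    refine le_trans (le_of_eq ?_) (a6.trans (c1.trans c3))
    rw [x2]; ring
  have c5 : (x * D - 1) * s ≤ τ * s := mul_le_mul_of_nonneg_right t2 (Nat.cast_nonneg _)
  have c6 : x * D * (3 * (D : ℝ) ^ 2) ≤ x * D * (2 * s) :=
    mul_le_mul_of_nonneg_left (by linarith) (by positivity)
  have c7 : (1 : ℝ) * (D : ℝ) ^ 2 ≤ b * (D : ℝ) ^ 2 :=
    mul_le_mul_of_nonneg_right (by linarith) (by positivity)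
  linarith

theorem pdiv2 (q n π : ℤ) (hπ : π ≠ 0) (a b : ℕ) (hab : 2 * a ≤ b) (hq : π ^ a ∣ q)
    (hn : π ^ b ∣ n) (W : Finset V) (hC : ChartK q n W) (D : ℕ) (hD : 1 ≤ D) :
    ∃ v : ℕ, (b = 0 → v = 0) ∧ phi a b * (D : ℝ) ^ 3 - 201 * b * (D : ℝ) ^ 2 ≤ v ∧
      ∀ p : Low D → V, (∀ i, p i ∈ W) → π ^ v ∣ (lowM D p).det := by
  have hD' : (1 : ℝ) ≤ D := by exact_mod_cast hD
  have hb0 : (0 : ℝ) ≤ b := Nat.cast_nonneg _
  by_cases h : 1 ≤ a ∧ b ≤ 36 * a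
  · obtain ⟨w, τ, hw, hw'⟩ := wab2 a b D (Low D).card h.1 hab h.2 hD (low_card D)
    have hE := low_e D
    set E := ∑ r ∈ Low D, ee D r with hEd
    refine ⟨w - b * E, fun hb => by omega, ?_, fun p hp => ?_⟩
    · have k1 : (w : ℝ) - b * E ≤ ((w - b * E : ℕ) : ℝ) := by
        have : w ≤ (w - b * E) + b * E := by omega
        have k : (w : ℝ) ≤ ((w - b * E : ℕ) : ℝ) + b * E := by exact_mod_cast this
        linarith
      have k2 : 6 * (E : ℝ) ≤ (D : ℝ) ^ 3 + D := by exact_mod_cast hE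
      have k3 : (D : ℝ) ≤ (D : ℝ) ^ 2 := by nlinarith
      have k4 : (b : ℝ) * (6 * E) ≤ b * ((D : ℝ) ^ 3 + (D : ℝ) ^ 2) :=
        mul_le_mul_of_nonneg_left (by linarith) hb0
      have k5 : 0 ≤ (b : ℝ) * (D : ℝ) ^ 2 := by positivity
      unfold phi
      nlinarith
    · have k := pdet q n π a b h.1 (by omega) hq hn W hC D p hp w τ hw
      rw [← hEd] at k
      by_cases hc : w ≤ b * E
      · rw [Nat.sub_eq_zero_of_le hc, pow_zero]; exact one_dvd _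
      · have e : w = b * E + (w - b * E) := by omega
        rw [e, pow_add] at k
        exact (mul_dvd_mul_iff_left (pow_ne_zero _ hπ)).1 k
  · have h36 : 36 * a ≤ b := by omega
    have h36' : 36 * (a : ℝ) ≤ b := by exact_mod_cast h36
    have k1 : √((a : ℝ) * b) ≤ (b : ℝ) / 6 :=
      Real.sqrt_le_iff.2 ⟨by positivity, by nlinarith⟩
    refine ⟨0, fun _ => rfl, ?_, fun p _ => by rw [pow_zero]; exact one_dvd _⟩
    have k2 : phi a b * (D : ℝ) ^ 3 ≤ 0 :=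
      mul_nonpos_of_nonpos_of_nonneg (by unfold phi; linarith) (by positivity)
    have k5 : 0 ≤ (b : ℝ) * (D : ℝ) ^ 2 := by positivity
    rw [Nat.cast_zero]
    nlinarith

end Pool.Agent.Lib.MP_9c5702_nt.QS
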