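import Pool.Agent.Lib.MP_9c5702_nt.QS.Defs

/-! The local inequalities for removing a cube. -/

set_option autoImplicit false

namespace Pool.Agent.Lib.MP_9c5702_nt.QS

open Pool.Agent.Lib.MP_9c5702_nt.Q4 Pool.Agent.Lib.MP_9c5702_nt.QB

theorem phi_step2 (a b α δ a' b' : ℕ) (h1 : 2 * a ≤ b) (h2 : b ≤ α + 3 * δ)
    (ha' : a' = min a (α / 2)) (hb' : b' = if 2 * a ≤ α then min b α else 2 * (α / 2)) :
    phi a b - phi a' b' - δ ≤ √3 / 2 * ((a : ℝ) - a') ∧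
      phi a b - phi a' b' - δ ≤ √3 / 4 * ((a : ℝ) - a' + δ) := by
  have s3 : (1.732 : ℝ) ≤ √3 := Real.le_sqrt_of_sq_le (by norm_num)
  have d0 : (0 : ℝ) ≤ δ := Nat.cast_nonneg _
  have a0 : (0 : ℝ) ≤ a := Nat.cast_nonneg _
  have b0 : (0 : ℝ) ≤ b := Nat.cast_nonneg _
  unfold phi
  by_cases h : 2 * a ≤ α
  · rw [if_pos h] at hb'
    have e : a' = a := by omega
    have k1 : (a : ℝ) ≤ b' := by exact_mod_cast (by omega : a ≤ b')
    have k2 : (b' : ℝ) ≤ b := by exact_mod_cast (by omega : b' ≤ b)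
    have k3 : (b : ℝ) ≤ b' + 3 * δ := by exact_mod_cast (by omega : b ≤ b' + 3 * δ)
    have k4 : (a : ℝ) ≤ √((a : ℝ) * b') := Real.le_sqrt_of_sq_le (by nlinarith)
    have k5 : √((a : ℝ) * b') ^ 2 = a * b' := Real.sq_sqrt (mul_nonneg a0 (a0.trans k1))
    have k6 : √((a : ℝ) * b) ≤ √((a : ℝ) * b') + (b - b') / 2 :=
      Real.sqrt_le_iff.2 ⟨by linarith, by
        nlinarith [mul_nonneg (sub_nonneg.2 k4) (sub_nonneg.2 k2), sq_nonneg ((b : ℝ) - b')]⟩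
    have k7 : 0 ≤ √3 / 4 * (δ : ℝ) := by positivity
    rw [e, sub_self, mul_zero, zero_add]
    constructor <;> linarith
  · rw [if_neg h] at hb'
    have e : (b' : ℝ) = 2 * a' := by exact_mod_cast (by omega : b' = 2 * a')
    have c0 : (0 : ℝ) ≤ a' := Nat.cast_nonneg _
    have k1 : (a' : ℝ) ≤ a := by exact_mod_cast (by omega : a' ≤ a)
    have k2 : (b : ℝ) ≤ 2 * a' + 1 + 3 * δ := by exact_mod_cast (by omega : b ≤ 2 * a' + 1 + 3 * δ)
    have k3 : (1 : ℝ) ≤ δ := by exact_mod_cast (by omega : 1 ≤ δ)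
    have k4 : 2 * (a : ℝ) ≤ b := by exact_mod_cast h1
    have r1 : (1.414 : ℝ) ≤ √2 := Real.le_sqrt_of_sq_le (by norm_num)
    have r2 : √2 ≤ (1.415 : ℝ) := Real.sqrt_le_iff.2 ⟨by norm_num, by norm_num⟩
    have r3 : √2 ^ 2 = (2 : ℝ) := Real.sq_sqrt (by norm_num)
    have k5 : √((a' : ℝ) * b') = √2 * a' := by
      rw [e, show (a' : ℝ) * (2 * a') = 2 * a' ^ 2 by ring, Real.sqrt_mul (by norm_num),
        Real.sqrt_sq c0]
    have k6 : √((a : ℝ) * b) ≤ √2 * (a / 2 + b / 4) :=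
      Real.sqrt_le_iff.2 ⟨by positivity, by
        rw [mul_pow, r3]
        nlinarith [sq_nonneg (2 * (a : ℝ) - b)]⟩
    have k7 := mul_le_mul_of_nonneg_left k2 (show 0 ≤ √2 / 4 - 1 / 6 by linarith)
    have k8 := mul_le_mul_of_nonneg_right r2 (sub_nonneg.2 k1)
    have k9 := mul_le_mul_of_nonneg_right r2 d0
    have l1 := mul_le_mul_of_nonneg_right s3 (sub_nonneg.2 k1)
    have l2 := mul_le_mul_of_nonneg_right s3 d0
    rw [k5, e]
    constructor <;> nlinarith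

end Pool.Agent.Lib.MP_9c5702_nt.QS
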