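import Pool.Agent.Lib.MP_9c5702_nt.QS.Short
import Pool.Agent.Lib.MP_9c5702_nt.QS.Orig
import Pool.Agent.Lib.MP_9c5702_nt.Q4.NonSp

/-! Non-special planes. -/

set_option autoImplicit false

namespace Pool.Agent.Lib.MP_9c5702_nt.QS

open Pool.Agent.Lib.MP_9c5702_nt.Q4 Pool.Agent.Lib.MP_9c5702_nt.QB

theorem plane_ns2 (n q B κ Y T l : ℕ) (h : Par n B κ Y T) (hq : 1 ≤ q)
    (hql : IsCoprime (q : ℤ) (l : ℤ)) (hYl : Y ≤ l ^ 2) (hl : 256 * n * Y ^ 3 ≤ l ^ 6 * q ^ 3)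
    (W : Finset V) (hW : ∀ P ∈ W, P ∈ Sol n B) (hQ : Lat (q : ℤ) W) (hC : AChart (l : ℤ) W)
    (ψ : V) (c0 : ℤ) (hb : ∀ i, |ψ i| ≤ (4 * (B : ℤ)) ^ 4) (hpl : ∀ P ∈ W, dot ψ P = c0)
    (hψ : NS ψ) : W.card ≤ (36 * κ + 54 + 27 * CU) * T ^ 9 := by
  have n1 := h.n1
  have T1 := h.tb.one_le n1
  have Y1 : 1 ≤ Y := by have := h.Y0; omega
  have l1 : 1 ≤ l := Nat.pos_of_ne_zero fun h0 => by simp [h0] at hYl; omega
  have hYl3 : Y ≤ l ^ 3 := hYl.trans (Nat.pow_le_pow_right l1 (by norm_num))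
  have hl' : 256 * (n : ℤ) * (Y : ℤ) ^ 3 ≤ (l : ℤ) ^ 6 * (q : ℤ) ^ 3 := by exact_mod_cast hl
  have hB : (B : ℤ) ^ 3 ≤ n := by exact_mod_cast h.B3
  have Y1' : (1 : ℤ) ≤ Y := by exact_mod_cast Y1
  have q1 : (1 : ℤ) ≤ q := by exact_mod_cast hq
  by_cases hc : c0 = 0
  · subst hc
    exact (origin_count n B T n1 h.Bn h.tb ψ hψ hb W hW hpl).trans
      (Nat.mul_le_mul_right _ (Nat.le_add_left _ _))
  · rcases W.eq_empty_or_nonempty with rfl | ⟨P0, hP0⟩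
    · simp
    obtain ⟨φ, h1, h2⟩ := short2 q B hq h.B1 W hQ (fun P hP => (hW P hP).1) ψ c0 hc hpl P0 hP0
    have h3 : ∀ P ∈ W, dot φ P = (q : ℤ) ^ 3 * ((dot φ P - dot φ P0) / (q : ℤ) ^ 3) + dot φ P0 := by
      intro P hP
      rw [Int.mul_ediv_cancel' (dvd_sub (h2 P hP).1 (h2 P0 hP0).1)]
      ring
    have h4 := nonspecial n B κ Y T l h W hW hC ψ hψ c0 hpl φ h1 ((q : ℤ) ^ 3) (dot φ P0)
      (by positivity) (IsCoprime.pow_left hql) _ h3 hYl3 (by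
      intro P hP
      have h4 := (h2 P hP).2
      have h5 := h3 P hP
      generalize (dot φ P - dot φ P0) / (q : ℤ) ^ 3 = s at h5 ⊢
      have h6 : s ^ 2 * (q : ℤ) ^ 3 ≤ 216 * (n : ℤ) := by
        refine le_of_mul_le_mul_right ?_ (by positivity : 0 < (q : ℤ) ^ 3)
        calc s ^ 2 * (q : ℤ) ^ 3 * (q : ℤ) ^ 3 = (dot φ P - dot φ P0) ^ 2 := by rw [h5]; ring
          _ ≤ 216 * (B : ℤ) ^ 3 * (q : ℤ) ^ 3 := h4
          _ ≤ 216 * (n : ℤ) * (q : ℤ) ^ 3 := by gcongr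
      refine le_of_pow_le_pow_left₀ (n := 2) (by norm_num) (by positivity) ?_
      refine le_of_mul_le_mul_right ?_ (by positivity : 0 < (q : ℤ) ^ 3)
      calc (|s| * Y) ^ 2 * (q : ℤ) ^ 3 = s ^ 2 * (q : ℤ) ^ 3 * (Y : ℤ) ^ 2 := by
            rw [mul_pow, sq_abs]; ring
        _ ≤ 256 * (n : ℤ) * (Y : ℤ) ^ 3 := by
          have : s ^ 2 * (q : ℤ) ^ 3 ≤ 256 * (n : ℤ) := by
            have : (0 : ℤ) ≤ n := Nat.cast_nonneg n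
            linarith
          gcongr
          norm_num
        _ ≤ ((l : ℤ) ^ 3) ^ 2 * (q : ℤ) ^ 3 := by rw [← pow_mul]; exact hl')
    exact (h4.trans (Nat.le_add_right _ _)).trans (Nat.le_mul_of_pos_right _ (Nat.pow_pos T1))

end Pool.Agent.Lib.MP_9c5702_nt.QS
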