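import Pool.Agent.Lib.MP_9c5702_nt.QS.Defs
import Pool.Agent.Lib.MP_9c5702_nt.Q4.Short

/-! A short functional on a plane that misses the origin. -/

set_option autoImplicit false

namespace Pool.Agent.Lib.MP_9c5702_nt.QS

open Pool.Agent.Lib.MP_9c5702_nt.Q4 Pool.Agent.Lib.MP_9c5702_nt.QB

theorem short2 (q B : ℕ) (hq : 1 ≤ q) (hB : 1 ≤ B) (W : Finset V) (hQ : Lat (q : ℤ) W)
    (hW : ∀ P ∈ W, ∀ k, 0 < P k ∧ P k ≤ B) (ψ : V) (c0 : ℤ) (hc : c0 ≠ 0)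
    (hpl : ∀ P ∈ W, dot ψ P = c0) (P0 : V) (hP0 : P0 ∈ W) :
    ∃ φ : V, crs ψ φ ≠ 0 ∧ ∀ P ∈ W, (q : ℤ) ^ 3 ∣ dot φ P ∧
      (dot φ P - dot φ P0) ^ 2 ≤ 216 * (B : ℤ) ^ 3 * (q : ℤ) ^ 3 := by
  obtain ⟨k, -, hmax⟩ := Finset.exists_max_image Finset.univ (fun m => |ψ m|) Finset.univ_nonempty
  obtain ⟨i, j, hij, hik, hjk⟩ := other_two k
  have hi := hmax i (Finset.mem_univ _)
  have hj := hmax j (Finset.mem_univ _)
  have hB0 : (0 : ℤ) < B := by exact_mod_cast hB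
  have hq0 : (0 : ℤ) < (q : ℤ) ^ 3 := by positivity
  have hdiff : ∀ P ∈ W, ∀ m, |P m - P0 m| ≤ B := fun P hP m => by
    have h1 := hW P hP m
    have h2 := hW P0 hP0 m
    rw [abs_le]; constructor <;> linarith [h1.1, h1.2, h2.1, h2.2]
  have hc0 : |c0| ≤ 3 * |ψ k| * B := by
    have key : ∀ m, |ψ m * P0 m| ≤ |ψ k| * B := fun m => by
      rw [abs_mul, abs_of_pos (hW P0 hP0 m).1]
      exact mul_le_mul (hmax m (Finset.mem_univ _)) (hW P0 hP0 m).2 (hW P0 hP0 m).1.le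
        (abs_nonneg _)
    rw [← hpl P0 hP0, dot]
    linarith [abs_add_three (ψ 0 * P0 0) (ψ 1 * P0 1) (ψ 2 * P0 2), key 0, key 1, key 2]
  have hk : ψ k ≠ 0 := fun h => hc (by rw [h] at hc0; simpa using hc0)
  have hk0 : 0 < |ψ k| := abs_pos.2 hk
  rcases le_or_gt (q ^ 3) (6 * B) with hs | hs
  · have hs' : (q : ℤ) ^ 3 ≤ 6 * B := by exact_mod_cast hs
    have e : ∀ P : V, dot (Pi.single i ((q : ℤ) ^ 3)) P = (q : ℤ) ^ 3 * P i := fun P => by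
      rw [dot_perm _ _ hij hik hjk]; simp [hij.symm, hik.symm]
    refine ⟨Pi.single i ((q : ℤ) ^ 3), fun h => ?_, fun P hP => ⟨e P ▸ Dvd.intro _ rfl, ?_⟩⟩
    · have := short_crs h k i
      rw [Pi.single_eq_same, Pi.single_eq_of_ne hik.symm, zero_mul] at this
      exact mul_ne_zero hk hq0.ne' this
    · have h1 : (P i - P0 i) ^ 2 ≤ (B : ℤ) ^ 2 := sq_le_sq' (abs_le.1 (hdiff P hP i)).1
        (abs_le.1 (hdiff P hP i)).2
      rw [e, e, ← mul_sub, mul_pow]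
      calc ((q : ℤ) ^ 3) ^ 2 * (P i - P0 i) ^ 2 ≤ ((q : ℤ) ^ 3 * (6 * B)) * (B : ℤ) ^ 2 :=
            mul_le_mul (by rw [sq]; exact mul_le_mul_of_nonneg_left hs' hq0.le) h1 (sq_nonneg _)
              (by positivity)
        _ = 6 * ((B : ℤ) ^ 3 * (q : ℤ) ^ 3) := by ring
        _ ≤ 216 * ((B : ℤ) ^ 3 * (q : ℤ) ^ 3) :=
            mul_le_mul_of_nonneg_right (by norm_num) (by positivity)
        _ = _ := by ring
  obtain ⟨g0, g1, g2, hg⟩ := hQ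
  set H : ℕ := q ^ 3 / (3 * B) with hH
  set S : ℕ := Nat.sqrt (6 * q ^ 3 * B) with hS
  have hH1 : 3 * B * H ≤ q ^ 3 := Nat.mul_div_le _ _
  have hH2 : q ^ 3 < 3 * B * (H + 1) := Nat.lt_mul_div_succ _ (by omega)
  have hH3 : 1 ≤ H := (Nat.le_div_iff_mul_le (by omega)).2 (by omega)
  have hS1 : S * S ≤ 6 * q ^ 3 * B := Nat.sqrt_le _
  have hS2 : 6 * q ^ 3 * B < (S + 1) * (S + 1) := Nat.lt_succ_sqrt _
  have hS3 : 1 ≤ S := Nat.sqrt_pos.2 (by positivity)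
  have hcard : q ^ 3 * q ^ 3 < H * ((S + 1) * (S + 1)) := by
    have h1 : q ^ 3 ≤ H * (6 * B) := by nlinarith
    calc q ^ 3 * q ^ 3 ≤ H * (6 * B) * q ^ 3 := Nat.mul_le_mul_right _ h1
      _ = H * (6 * q ^ 3 * B) := by ring
      _ < _ := Nat.mul_lt_mul_of_pos_left hS2 hH3
  obtain ⟨φ, h0, h1, h2, h3, d0, d1, d2⟩ := short_box q H (S + 1) hq hcard ψ g0 g1 g2 hij hik hjk hk
  have hdv : ∀ P ∈ W, (q : ℤ) ^ 3 ∣ dot φ P := fun P hP => by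
    obtain ⟨x0, x1, x2, hu⟩ := hg P hP
    obtain ⟨a0, e0⟩ := hu 0
    obtain ⟨a1, e1⟩ := hu 1
    obtain ⟨a2, e2⟩ := hu 2
    obtain ⟨b0, f0⟩ := d0
    obtain ⟨b1, f1⟩ := d1
    obtain ⟨b2, f2⟩ := d2
    simp only [dot] at f0 f1 f2 ⊢
    exact ⟨φ 0 * a0 + φ 1 * a1 + φ 2 * a2 + (x0 * b0 + x1 * b1 + x2 * b2), by
      linear_combination φ 0 * e0 + φ 1 * e1 + φ 2 * e2 + x0 * f0 + q * x1 * f1 +
        q ^ 2 * x2 * f2⟩
  refine ⟨φ, fun h => h0 ?_, fun P hP => ⟨hdv P hP, ?_⟩⟩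
  · have e := short_crs h k
    have e1 : ψ k * dot φ P0 = φ k * c0 := by
      rw [← hpl P0 hP0]
      simp only [dot]
      linear_combination P0 0 * e 0 + P0 1 * e 1 + P0 2 * e 2
    have e2 := congrArg abs e1
    rw [abs_mul, abs_mul] at e2
    have hH1' : 3 * (B : ℤ) * H ≤ (q : ℤ) ^ 3 := by exact_mod_cast hH1
    have e3 : |dot φ P0| < (q : ℤ) ^ 3 := by
      refine lt_of_mul_lt_mul_left ?_ hk0.le
      calc |ψ k| * |dot φ P0| ≤ |φ k| * (3 * |ψ k| * B) :=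
            e2 ▸ mul_le_mul_of_nonneg_left hc0 (abs_nonneg _)
        _ < H * (3 * |ψ k| * B) := mul_lt_mul_of_pos_right h1 (by positivity)
        _ = |ψ k| * (3 * B * H) := by ring
        _ ≤ _ := mul_le_mul_of_nonneg_left hH1' hk0.le
    have e4 := Int.eq_zero_of_abs_lt_dvd (hdv P0 hP0) e3
    rw [e4, mul_zero] at e1
    have e5 : φ k = 0 := (mul_eq_zero.1 e1.symm).resolve_right hc
    funext m
    have := e m
    rw [e5, zero_mul] at this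
    exact (mul_eq_zero.1 this).resolve_left hk
  · have e1 : ψ k * (dot φ P - dot φ P0) = (ψ k * φ i - φ k * ψ i) * (P i - P0 i) +
        (ψ k * φ j - φ k * ψ j) * (P j - P0 j) := by
      have a1 := hpl P hP
      have a2 := hpl P0 hP0
      rw [dot_perm _ _ hij hik hjk] at a1 a2
      rw [dot_perm _ _ hij hik hjk, dot_perm _ _ hij hik hjk]
      linear_combination φ k * a1 - φ k * a2
    have b1 := mul_le_mul h2 (hdiff P hP i) (abs_nonneg _) (by positivity)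
    have b2 := mul_le_mul h3 (hdiff P hP j) (abs_nonneg _) (by positivity)
    have b3 := abs_add_le ((ψ k * φ i - φ k * ψ i) * (P i - P0 i))
      ((ψ k * φ j - φ k * ψ j) * (P j - P0 j))
    rw [← e1, abs_mul, abs_mul, abs_mul] at b3
    have b4 : |dot φ P - dot φ P0| ≤ 2 * ((S + 1 : ℕ) : ℤ) * B :=
      le_of_mul_le_mul_left (by linarith) hk0
    have b5 : ((S + 1 : ℕ) : ℤ) ^ 2 ≤ 24 * (q : ℤ) ^ 3 * B := by
      have : (S + 1) ^ 2 ≤ 24 * q ^ 3 * B := by nlinarith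
      exact_mod_cast this
    calc (dot φ P - dot φ P0) ^ 2 ≤ (2 * ((S + 1 : ℕ) : ℤ) * B) ^ 2 :=
          sq_le_sq' (abs_le.1 b4).1 (abs_le.1 b4).2
      _ = 4 * (B : ℤ) ^ 2 * ((S + 1 : ℕ) : ℤ) ^ 2 := by ring
      _ ≤ 4 * (B : ℤ) ^ 2 * (24 * (q : ℤ) ^ 3 * B) := mul_le_mul_of_nonneg_left b5 (by positivity)
      _ = 96 * ((B : ℤ) ^ 3 * (q : ℤ) ^ 3) := by ring
      _ ≤ 216 * ((B : ℤ) ^ 3 * (q : ℤ) ^ 3) :=
          mul_le_mul_of_nonneg_right (by norm_num) (by positivity)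
      _ = _ := by ring

end Pool.Agent.Lib.MP_9c5702_nt.QS
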