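import Pool.Agent.Lib.MP_9c5702_nt.QS.NCount

/-! Solutions of bounded height of a cubic Thue equation. -/

set_option autoImplicit false

namespace Pool.Agent.Lib.MP_9c5702_nt.QS

open Pool.Agent.Lib.MP_9c5702_nt.Q4 Pool.Agent.Lib.MP_9c5702_nt.QB

open Polynomial NumberField

lemma thue_root_bound (z c2 c1 c0 : ℂ) (B : ℝ) (hB : 1 ≤ B) (h2 : ‖c2‖ ≤ B) (h1 : ‖c1‖ ≤ B)
    (h0 : ‖c0‖ ≤ B) (hz : z ^ 3 + c2 * z ^ 2 + c1 * z + c0 = 0) : ‖z‖ ≤ 3 * B := by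
  by_contra hc
  rw [not_le] at hc
  have hr : 1 ≤ ‖z‖ := by linarith
  have e : z ^ 3 = -(c2 * z ^ 2 + c1 * z + c0) := by linear_combination hz
  have h3 : ‖z‖ ^ 3 ≤ ‖c2‖ * ‖z‖ ^ 2 + ‖c1‖ * ‖z‖ + ‖c0‖ := by
    rw [← norm_pow, e, norm_neg]
    refine (norm_add_le _ _).trans (add_le_add ((norm_add_le _ _).trans ?_) le_rfl)
    rw [norm_mul, norm_mul, norm_pow]
  have hq : ‖z‖ ≤ ‖z‖ ^ 2 := by nlinarith
  have hq1 : 1 ≤ ‖z‖ ^ 2 := hr.trans hq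
  have a2 : ‖c2‖ * ‖z‖ ^ 2 ≤ B * ‖z‖ ^ 2 := mul_le_mul_of_nonneg_right h2 (by positivity)
  have a1 : ‖c1‖ * ‖z‖ ≤ B * ‖z‖ ^ 2 := mul_le_mul h1 hq (norm_nonneg _) (by linarith)
  have a0 : ‖c0‖ ≤ B * ‖z‖ ^ 2 := h0.trans (le_mul_of_one_le_right (by linarith) hq1)
  have a3 : 3 * B * ‖z‖ ^ 2 < ‖z‖ * ‖z‖ ^ 2 := mul_lt_mul_of_pos_right hc (by linarith)
  nlinarith

lemma thue_field (c2 c1 c0 : ℤ) (hno : ∀ ρ : ℚ, ρ ^ 3 + c2 * ρ ^ 2 + c1 * ρ + c0 ≠ 0) :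
    ∃ (K : Type) (_ : Field K) (_ : NumberField K), Module.finrank ℚ K = 3 ∧
      ∃ θ : 𝓞 K, θ ^ 3 + c2 * θ ^ 2 + c1 * θ + c0 = 0 := by
  set g : ℚ[X] := X ^ 3 + C (c2 : ℚ) * X ^ 2 + C (c1 : ℚ) * X + C (c0 : ℚ) with hg
  have hdeg : g.natDegree = 3 := by rw [hg]; compute_degree!
  have hmon : g.Monic := by rw [hg]; monicity!
  have hirr : Irreducible g := by
    rw [hmon.irreducible_iff_roots_eq_zero_of_degree_le_three (by omega) (by omega)]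
    rw [Multiset.eq_zero_iff_forall_notMem]
    intro ρ hρ
    rw [mem_roots hmon.ne_zero, IsRoot.def, hg] at hρ
    apply hno ρ
    simpa using hρ
  have : Fact (Irreducible g) := ⟨hirr⟩
  have hroot : (AdjoinRoot.root g) ^ 3 + (c2 : AdjoinRoot g) * (AdjoinRoot.root g) ^ 2 +
      (c1 : AdjoinRoot g) * (AdjoinRoot.root g) + (c0 : AdjoinRoot g) = 0 := by
    have h' : eval₂ (AdjoinRoot.of g) (AdjoinRoot.root g)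
        (X ^ 3 + C (c2 : ℚ) * X ^ 2 + C (c1 : ℚ) * X + C (c0 : ℚ) : ℚ[X]) = 0 :=
      AdjoinRoot.eval₂_root g
    simp only [eval₂_add, eval₂_mul, eval₂_X_pow, eval₂_C, eval₂_X] at h'
    simp only [map_intCast] at h'
    exact h'
  have hint : IsIntegral ℤ (AdjoinRoot.root g) := by
    refine ⟨X ^ 3 + C c2 * X ^ 2 + C c1 * X + C c0, by monicity!, ?_⟩
    simp only [eval₂_add, eval₂_mul, eval₂_X_pow, eval₂_C, eval₂_X]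
    simp only [eq_intCast]
    exact hroot
  refine ⟨AdjoinRoot g, inferInstance, inferInstance, ?_, ⟨AdjoinRoot.root g, hint⟩, ?_⟩
  · rw [(AdjoinRoot.powerBasis hmon.ne_zero).finrank, AdjoinRoot.powerBasis_dim, hdeg]
  · apply RingOfIntegers.coe_injective
    simpa using hroot

theorem thue_count (a0 a1 a2 a3 m : ℤ) (H j : ℕ)
    (hirr : ∀ s t : ℚ, a0 * s ^ 3 + a1 * s ^ 2 * t + a2 * s * t ^ 2 + a3 * t ^ 3 = 0 → s = 0 ∧ t = 0)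
    (hm : m ≠ 0) (hH : 1 ≤ H) (h0 : |a0| ≤ H) (h1 : |a1| ≤ H) (h2 : |a2| ≤ H) (h3 : |a3| ≤ H)
    (hj : 4 * H ^ 4 ≤ 2 ^ j) (Z : Finset (ℤ × ℤ))
    (hZ : ∀ z ∈ Z, a0 * z.1 ^ 3 + a1 * z.1 ^ 2 * z.2 + a2 * z.1 * z.2 ^ 2 + a3 * z.2 ^ 3 = m ∧
      |z.1| ≤ H ∧ |z.2| ≤ H) :
    Z.card ≤ (a0 ^ 2 * m).natAbs.divisors.card ^ 6 * ((3 * j + 1) ^ 3 * CU) := by
  classical
  have ha0 : a0 ≠ 0 := by
    intro h
    have := (hirr 1 0 (by simp [h])).1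
    exact one_ne_zero this
  have ha0' : (a0 : ℚ) ≠ 0 := by exact_mod_cast ha0
  obtain ⟨K, _, _, hK, θ, hθ⟩ := thue_field a1 (a0 * a2) (a0 ^ 2 * a3) (by
    intro ρ hρ
    apply ha0'
    refine (hirr ρ a0 ?_).2
    push_cast at hρ
    linear_combination (a0 : ℚ) * hρ)
  push_cast at hθ
  set ξ : ℤ × ℤ → 𝓞 K := fun z => (a0 : 𝓞 K) * (z.1 : 𝓞 K) - θ * (z.2 : 𝓞 K) with hξ
  have hinj : Function.Injective ξ := by
    intro z w h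
    have h' : (a0 : 𝓞 K) * (z.1 : 𝓞 K) - θ * (z.2 : 𝓞 K) =
        (a0 : 𝓞 K) * (w.1 : 𝓞 K) - θ * (w.2 : 𝓞 K) := h
    have e : (a0 : 𝓞 K) * ((z.1 : 𝓞 K) - w.1) = θ * ((z.2 : 𝓞 K) - w.2) := by
      linear_combination h'
    have e2 : ((a0 ^ 2 * (a0 * (z.1 - w.1) ^ 3 + a1 * (z.1 - w.1) ^ 2 * (z.2 - w.2) +
        a2 * (z.1 - w.1) * (z.2 - w.2) ^ 2 + a3 * (z.2 - w.2) ^ 3) : ℤ) : 𝓞 K) = 0 := by
      push_cast
      have e3 : (a0 : 𝓞 K) ^ 2 * (a0 * ((z.1 : 𝓞 K) - w.1) ^ 3 +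
          a1 * ((z.1 : 𝓞 K) - w.1) ^ 2 * ((z.2 : 𝓞 K) - w.2) +
          a2 * ((z.1 : 𝓞 K) - w.1) * ((z.2 : 𝓞 K) - w.2) ^ 2 + a3 * ((z.2 : 𝓞 K) - w.2) ^ 3) =
          (a0 * ((z.1 : 𝓞 K) - w.1)) ^ 3 +
          a1 * (a0 * ((z.1 : 𝓞 K) - w.1)) ^ 2 * ((z.2 : 𝓞 K) - w.2) +
          a0 * a2 * (a0 * ((z.1 : 𝓞 K) - w.1)) * ((z.2 : 𝓞 K) - w.2) ^ 2 +
          a0 ^ 2 * a3 * ((z.2 : 𝓞 K) - w.2) ^ 3 := by ring
      rw [e3, e]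
      linear_combination ((z.2 : 𝓞 K) - w.2) ^ 3 * hθ
    have e4 := Int.cast_eq_zero.mp e2
    have e5 := (mul_eq_zero.mp e4).resolve_left (pow_ne_zero 2 ha0)
    have e6 := hirr ((z.1 - w.1 : ℤ) : ℚ) ((z.2 - w.2 : ℤ) : ℚ) (by exact_mod_cast e5)
    have e7 : z.1 - w.1 = 0 := by exact_mod_cast e6.1
    have e8 : z.2 - w.2 = 0 := by exact_mod_cast e6.2
    exact Prod.ext (sub_eq_zero.mp e7) (sub_eq_zero.mp e8)
  rw [← Finset.card_image_of_injective Z hinj]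
  refine norm_count K hK _ j (Int.natAbs_ne_zero.mpr (mul_ne_zero (pow_ne_zero 2 ha0) hm)) _ ?_ ?_
  · intro x hx
    obtain ⟨z, hz, rfl⟩ := Finset.mem_image.mp hx
    have hd : ξ z ∣ ((a0 ^ 2 * m : ℤ) : 𝓞 K) := by
      refine ⟨((a0 : 𝓞 K) * z.1) ^ 2 + (a0 : 𝓞 K) * z.1 * θ * z.2 + θ ^ 2 * (z.2 : 𝓞 K) ^ 2 +
        a1 * z.2 * ((a0 : 𝓞 K) * z.1 + θ * z.2) + a0 * a2 * (z.2 : 𝓞 K) ^ 2, ?_⟩
      rw [← (hZ z hz).1, hξ]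
      push_cast
      linear_combination (z.2 : 𝓞 K) ^ 3 * hθ
    have hd2 : ((a0 ^ 2 * m : ℤ) : 𝓞 K) ∣ ((((a0 ^ 2 * m).natAbs : ℕ) : ℤ) : 𝓞 K) :=
      map_dvd (Int.castRingHom (𝓞 K)) (Int.dvd_natAbs.mpr dvd_rfl)
    rw [Int.cast_natCast] at hd2
    exact hd.trans hd2
  · intro x hx σ
    obtain ⟨z, hz, rfl⟩ := Finset.mem_image.mp hx
    have hHr : (1 : ℝ) ≤ H := by exact_mod_cast hH
    have hn : ∀ c : ℤ, |c| ≤ H → ‖(c : ℂ)‖ ≤ H := by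
      intro c hc
      rw [Complex.norm_intCast]
      exact_mod_cast hc
    have p2 : (H : ℝ) ≤ (H : ℝ) ^ 2 := le_self_pow₀ hHr (by norm_num)
    have p3 : (H : ℝ) ^ 2 ≤ (H : ℝ) ^ 3 := pow_le_pow_right₀ hHr (by norm_num)
    have p4 : (H : ℝ) ^ 2 ≤ (H : ℝ) ^ 4 := pow_le_pow_right₀ hHr (by norm_num)
    have hm2 : ∀ c d : ℤ, |c| ≤ H → |d| ≤ H → ‖(c : ℂ) * d‖ ≤ (H : ℝ) ^ 2 := by
      intro c d hc hd
      rw [norm_mul, sq]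
      exact mul_le_mul (hn c hc) (hn d hd) (norm_nonneg _) (by linarith)
    have hσ := congrArg (σ.comp (algebraMap (𝓞 K) K)) hθ
    simp only [map_add, map_mul, map_pow, map_intCast, map_zero] at hσ
    have hb := thue_root_bound _ _ _ _ ((H : ℝ) ^ 3) (one_le_pow₀ hHr) ((hn a1 h1).trans (p2.trans p3))
      ((hm2 a0 a2 h0 h2).trans p3) (by
        rw [norm_mul, sq, pow_succ (H : ℝ) 2]
        exact mul_le_mul (hm2 a0 a0 h0 h0) (hn a3 h3) (norm_nonneg _) (by positivity)) hσ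
    have e : σ (ξ z : K) = (a0 : ℂ) * z.1 - (σ.comp (algebraMap (𝓞 K) K)) θ * z.2 := by
      change (σ.comp (algebraMap (𝓞 K) K)) (ξ z) = _
      rw [hξ]
      simp only [map_sub, map_mul, map_intCast]
    have hj' : 4 * (H : ℝ) ^ 4 ≤ 2 ^ j := by exact_mod_cast hj
    rw [e]
    refine (norm_sub_le _ _).trans (le_trans ?_ hj')
    have b1 := hm2 a0 z.1 h0 (hZ z hz).2.1
    have b2 : ‖(σ.comp (algebraMap (𝓞 K) K)) θ * z.2‖ ≤ 3 * (H : ℝ) ^ 3 * H := by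
      rw [norm_mul]
      exact mul_le_mul hb (hn _ (hZ z hz).2.2) (norm_nonneg _) (by positivity)
    have e4 : 3 * (H : ℝ) ^ 3 * H = 3 * (H : ℝ) ^ 4 := by ring
    linarith

end Pool.Agent.Lib.MP_9c5702_nt.QS
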