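import Pool.Agent.Lib.MP_9c5702_nt.QS.Defs

/-! Algebraic integers of a cubic field with small conjugates. -/

set_option autoImplicit false

namespace Pool.Agent.Lib.MP_9c5702_nt.QS

open Pool.Agent.Lib.MP_9c5702_nt.Q4 Pool.Agent.Lib.MP_9c5702_nt.QB

lemma ubox_deg (K : Type) [Field K] [NumberField K] (hK : Module.finrank ℚ K = 3) {x : K}
    (hx : IsIntegral ℤ x) : (minpoly ℤ x).natDegree ≤ 3 := by
  have h1 : (minpoly ℚ x).natDegree ≤ 3 := hK ▸ minpoly.natDegree_le x
  rw [minpoly.isIntegrallyClosed_eq_field_fractions' ℚ hx,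
    (minpoly.monic hx).natDegree_map] at h1
  exact h1

lemma ubox_coeff (K : Type) [Field K] [NumberField K] (hK : Module.finrank ℚ K = 3) {x : K}
    (hx : IsIntegral ℤ x) (hs : ∀ σ : K →+* ℂ, ‖σ x‖ ≤ 2) (i : ℕ) :
    (minpoly ℤ x).coeff i ∈ Finset.Icc (-24 : ℤ) 24 := by
  have h1 := NumberField.Embeddings.coeff_bdd_of_norm_le (A := ℂ) hs i
  rw [minpoly.isIntegrallyClosed_eq_field_fractions' ℚ hx, Polynomial.coeff_map, hK] at h1
  have h2 : ‖(algebraMap ℤ ℚ) ((minpoly ℤ x).coeff i)‖ = |(((minpoly ℤ x).coeff i : ℤ) : ℝ)| := by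
    rw [eq_intCast, Int.norm_cast_rat, Int.norm_eq_abs]
  rw [h2] at h1
  have h3 : |(((minpoly ℤ x).coeff i : ℤ) : ℝ)| ≤ 24 := by
    refine h1.trans (le_of_eq ?_)
    norm_num
  have h4 : |(minpoly ℤ x).coeff i| ≤ 24 := by exact_mod_cast h3
  exact Finset.mem_Icc.2 (abs_le.1 h4)

lemma ubox_ext {p q : Polynomial ℤ} (hp : p.natDegree ≤ 3) (hq : q.natDegree ≤ 3)
    (h : ∀ i : Fin 4, p.coeff i = q.coeff i) : p = q := by
  ext i
  by_cases hi : i < 4
  · exact h ⟨i, hi⟩
  · rw [Polynomial.coeff_eq_zero_of_natDegree_lt (by omega),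
      Polynomial.coeff_eq_zero_of_natDegree_lt (by omega)]

theorem unit_box (K : Type) [Field K] [NumberField K] (hK : Module.finrank ℚ K = 3) (U : Finset K)
    (h : ∀ x ∈ U, IsIntegral ℤ x ∧ ∀ σ : K →+* ℂ, ‖σ x‖ ≤ 2) : U.card ≤ CU := by
  classical
  obtain ⟨T, hT, hTc⟩ : ∃ T : Finset ℤ,
      (∀ x ∈ U, ∀ i : ℕ, (minpoly ℤ x).coeff i ∈ T) ∧ T.card = 49 :=
    ⟨Finset.Icc (-24 : ℤ) 24, fun x hx i => ubox_coeff K hK (h x hx).1 (h x hx).2 i, by
      rw [Int.card_Icc]; rfl⟩
  have key := Finset.card_le_mul_card_image_of_maps_to (s := U)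
    (f := fun x : K => fun i : Fin 4 => (minpoly ℤ x).coeff i)
    (t := Fintype.piFinset fun _ : Fin 4 => T)
    (fun x hx => Fintype.mem_piFinset.2 fun i => hT x hx i) 3
    (by
      intro b _
      rcases Finset.eq_empty_or_nonempty
        (U.filter fun a => (fun i : Fin 4 => (minpoly ℤ a).coeff i) = b) with he | ⟨x0, hx0⟩
      · rw [he]; simp
      · obtain ⟨hx0U, hx0b⟩ := Finset.mem_filter.1 hx0
        have hm := minpoly.monic (h x0 hx0U).1
        have hne : (minpoly ℤ x0).map (algebraMap ℤ K) ≠ 0 := (hm.map _).ne_zero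
        have hsub : (U.filter fun a => (fun i : Fin 4 => (minpoly ℤ a).coeff i) = b) ⊆
            ((minpoly ℤ x0).map (algebraMap ℤ K)).roots.toFinset := by
          intro x hx
          obtain ⟨hxU, hxb⟩ := Finset.mem_filter.1 hx
          have he : minpoly ℤ x = minpoly ℤ x0 :=
            ubox_ext (ubox_deg K hK (h x hxU).1) (ubox_deg K hK (h x0 hx0U).1)
              fun i => congrFun (hxb.trans hx0b.symm) i
          rw [Multiset.mem_toFinset, Polynomial.mem_roots hne, Polynomial.IsRoot.def,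
            Polynomial.eval_map_algebraMap, ← he]
          exact minpoly.aeval ℤ x
        refine (Finset.card_le_card hsub).trans ((Multiset.toFinset_card_le _).trans ?_)
        refine (Polynomial.card_roots' _).trans ?_
        rw [hm.natDegree_map]
        exact ubox_deg K hK (h x0 hx0U).1)
  refine key.trans (le_of_eq ?_)
  rw [Fintype.card_piFinset, Finset.prod_const, hTc, Finset.card_univ, Fintype.card_fin, CU]

end Pool.Agent.Lib.MP_9c5702_nt.QS
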