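import Pool.Agent.Lib.MP_9c5702_nt.QS.WCong
import Pool.Agent.Lib.MP_9c5702_nt.Q4.Weier

/-! Points of a class in a plane where a sum of two coordinates is constant. -/

set_option autoImplicit false

namespace Pool.Agent.Lib.MP_9c5702_nt.QS

open Pool.Agent.Lib.MP_9c5702_nt.Q4 Pool.Agent.Lib.MP_9c5702_nt.QB

theorem weier2 (n q B κ Y T l : ℕ) (h : Par n B κ Y T) (hn : q ^ 2 ∣ n) (hq : 1 ≤ q)
    (hql : IsCoprime (q : ℤ) (l : ℤ)) (hYl : Y ≤ l ^ 2) (hl : n * Y ^ 3 ≤ l ^ 6 * q ^ 3)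
    (W : Finset V)
    (hW : ∀ P ∈ W, P ∈ Sol n B) (hp : Pw (Crs (3 * (q : ℤ))) W) (hf : Pw (FlQ q) W)
    (hC : AChart (l : ℤ) W)
    (i j k : Fin 3) (hij : i ≠ j) (hik : i ≠ k) (hjk : j ≠ k) (c : ℤ)
    (hs : ∀ P ∈ W, P i + P j = c) : W.card ≤ 8 * κ + 10 := by
  classical
  rcases W.eq_empty_or_nonempty with rfl | ⟨P0, hP0⟩
  · simp
  have hq0 : (0 : ℤ) < q := by exact_mod_cast hq
  have hs1 : ∀ P ∈ W, P k = q * ((P k - P0 k) / q) + P0 k := fun P hP => by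
    rw [Int.mul_ediv_cancel' (weier_cong2 n q B hq hn P P0 (hW P hP) (hW P0 hP0)
      (hp P hP P0 hP0) (hf P hP P0 hP0) i j k hij hik hjk (by rw [hs P hP, hs P0 hP0]))]
    ring
  obtain ⟨s, hs2⟩ : ∃ s : V → ℤ, ∀ P ∈ W, P k = q * s P + P0 k := ⟨_, hs1⟩
  have hsl : ∀ P ∈ W, |s P| * Y ≤ (l : ℤ) ^ 2 := fun P hP => by
    have h1 := (hW P hP).1 k
    have h2 := (hW P0 hP0).1 k
    have h3 : q * |s P| ≤ B := by
      have e : (q : ℤ) * |s P| = |P k - P0 k| := by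
        rw [hs2 P hP, add_sub_cancel_right, abs_mul, abs_of_pos hq0]
      rw [e, abs_le]
      constructor <;> linarith [h1.1, h1.2, h2.1, h2.2]
    have h4 : (q * |s P|) ^ 3 ≤ (B : ℤ) ^ 3 := pow_le_pow_left₀ (by positivity) h3 3
    have h5 : (B : ℤ) ^ 3 ≤ n := by exact_mod_cast h.B3
    have h7 : (n : ℤ) * Y ^ 3 ≤ l ^ 6 * q ^ 3 := by exact_mod_cast hl
    refine (pow_le_pow_iff_left₀ (by positivity) (by positivity) (n := 3) (by norm_num)).1 ?_
    refine le_of_mul_le_mul_right (a := (q : ℤ) ^ 3) ?_ (by positivity)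
    calc (|s P| * Y) ^ 3 * (q : ℤ) ^ 3 = (q * |s P|) ^ 3 * Y ^ 3 := by ring
      _ ≤ (n : ℤ) * Y ^ 3 := mul_le_mul_of_nonneg_right (h4.trans h5) (by positivity)
      _ ≤ (l : ℤ) ^ 6 * q ^ 3 := h7
      _ = ((l : ℤ) ^ 2) ^ 3 * q ^ 3 := by ring
  obtain ⟨A, hA0, hA1, hA2⟩ := bp_rel κ 2 Y B l (Or.inl rfl) h.Y0 h.B1 h.BY hYl W hC s
    (fun P => P i) (polyMod_lin _ W (Pi.single k 1) q (P0 k) hql s fun P hP => by
      rw [← hs2 P hP, dot_perm _ _ hij hik hjk, Pi.single_eq_of_ne hik, Pi.single_eq_of_ne hjk,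
        Pi.single_eq_same]
      ring) (polyMod_coord _ W i) hsl fun P hP => by
      have h1 := (hW P hP).1 i
      rw [abs_of_pos h1.1]
      exact h1.2
  have hc : 0 < c := by
    rw [← hs P0 hP0]
    exact add_pos ((hW P0 hP0).1 i).1 ((hW P0 hP0).1 j).1
  have hF : ∀ P ∈ W, 3 * c * (2 * P i - c) ^ 2 = (4 * n - c ^ 3) - 4 * (q * s P + P0 k) ^ 3 :=
    fun P hP => by
      rw [← hs2 P hP, ← (hW P hP).2.1, F_perm P hij hik hjk, ← hs P hP]
      ring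
  obtain ⟨ρ, h0, h1, h2⟩ := weier_poly (A 0) (A 1) (2 * κ + 1) (Fin.exists_fin_two.1 hA0) (hA1 0)
    (hA1 1) c (4 * n - c ^ 3) q (P0 k) hc.ne' hq0.ne'
  have h3 : W.card ≤ (ρ.roots.toFinset ×ˢ (Finset.univ : Finset Bool)).card := by
    refine Finset.card_le_card_of_injOn (fun P => (s P, decide (0 ≤ 2 * P i - c)))
      (fun P hP => ?_) fun P hP P' hP' e => ?_
    · refine Finset.mem_coe.2 (Finset.mem_product.2 ⟨?_, Finset.mem_univ _⟩)
      rw [Multiset.mem_toFinset, Polynomial.mem_roots h0]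
      refine h2 _ (P i) ?_ (hF P hP)
      simpa [Fin.sum_univ_two] using hA2 P hP
    · obtain ⟨e1, e2⟩ := Prod.mk.inj e
      have e3 := hF P hP
      rw [e1, ← hF P' hP'] at e3
      have e4 := mul_left_cancel₀ (mul_pos (by norm_num) hc).ne' e3
      have e5 : P i = P' i := by
        rw [decide_eq_decide] at e2
        rcases sq_eq_sq_iff_eq_or_eq_neg.1 e4 with e6 | e6 <;> omega
      refine vec_ext_perm hij hik hjk e5 ?_ ?_
      · have := hs P hP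
        have := hs P' hP'
        omega
      · rw [hs2 P hP, hs2 P' hP', e1]
  rw [Finset.card_product, Finset.card_univ, Fintype.card_bool] at h3
  have h4 := (Multiset.toFinset_card_le ρ.roots).trans (Polynomial.card_roots' ρ)
  omega

end Pool.Agent.Lib.MP_9c5702_nt.QS
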